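import Pool.Agent.H910Z.TE.Words2

set_option autoImplicit false

/-! # Bounded translation equivalence: the statements of the parts -/

namespace Pool.Agent.H8Z.BTE

open Pool.Agent.Helper156.OF Pool.Agent.H910Z.TE

/-- the cyclic length of the images of `u` is bounded on the automorphisms which do not lengthen `v` -/
def Bdd {α : Type} [DecidableEq α] (u v : FreeGroup α) : Prop :=
  ∃ M : ℤ, ∀ θ : MulAut (FreeGroup α), (θ v).norm ≤ v.norm → tau (θ u) ≤ M

/-- the same on every level set of the length of the images of `v` -/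
def BddAll {α : Type} [DecidableEq α] (u v : FreeGroup α) : Prop :=
  ∀ K : ℕ, ∃ M : ℤ, ∀ θ : MulAut (FreeGroup α), (θ v).norm ≤ K → tau (θ u) ≤ M

/-- aperiodicity modulo six -/
def APs (α : Type) [DecidableEq α] : Prop :=
  ∀ (a : MulAut (FreeGroup α)),
    (∀ (χ : FreeGroup α →* Multiplicative (ZMod 6)) (g : FreeGroup α), χ (a g) = χ g) →
    ∀ (u : FreeGroup α) (k : ℕ), 0 < k → IsConj ((a ^ k) u) u →
      ∀ ψ : MulAut (FreeGroup α), tau (ψ (a u)) = tau (ψ u)

/-- the key lemma: short bases -/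
def KLs (α : Type) [DecidableEq α] : Prop :=
  ∀ v : FreeGroup α, v ≠ 1 → ∃ K C : ℕ, ∀ φ : MulAut (FreeGroup α),
    ∃ (θ : MulAut (FreeGroup α)) (h : FreeGroup α), (θ v).norm ≤ K ∧
      ∀ x ∈ (θ v).toWord,
        ((h⁻¹ * φ (θ⁻¹ (FreeGroup.of x.1)) * h).norm : ℤ) ≤ C * tau (φ v)

/-- the element of the free group of rank `n + 1` coded by a list -/
def wd (n : ℕ) (l : List (ℕ × Bool)) : FreeGroup (Fin (n + 1)) :=
  FreeGroup.mk (l.map (fun x => ((⟨x.1 % (n + 1), Nat.mod_lt x.1 (Nat.succ_pos n)⟩ : Fin (n + 1)), x.2)))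

end Pool.Agent.H8Z.BTE
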