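import Pool.Agent.H8Z.BTE.Core
import Pool.Agent.H8Z.BTE.Defs
import Pool.Agent.H910Z.TE.Cyc

set_option autoImplicit false
set_option linter.unusedSectionVars false
set_option linter.unusedSimpArgs false
set_option linter.unusedVariables false

/-! # The parts of the key lemma -/

namespace Pool.Agent.H8Z.BTE

open Pool.Agent.Helper156.OF Pool.Agent.H910Z.TE

namespace Cfg

variable {α E V : Type} [DecidableEq α] (C : Cfg α E V)

/-- all cells outside the base component are covered at least twice -/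
def Thick : Prop := ∀ c i, c ≠ C.c0 → C.lo c ≤ i → i < C.hi c → 2 ≤ C.wt c i

/-- all cells outside the base component are covered at least three times -/
def Heavy : Prop := ∀ c i, c ≠ C.c0 → C.lo c ≤ i → i < C.hi c → 3 ≤ C.wt c i

/-- every component but the base one is covered exactly twice everywhere or at least three times
everywhere -/
def Pure : Prop := ∀ c, c ≠ C.c0 → (∀ i, C.lo c ≤ i → i < C.hi c → C.wt c i = 2) ∨
  (∀ i, C.lo c ≤ i → i < C.hi c → 3 ≤ C.wt c i)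

end Cfg

/-- the initial configuration -/
def InitS (α : Type) [DecidableEq α] : Prop :=
  ∀ n : ℕ, ∃ B : ℕ, ∀ (ψ : MulAut (FreeGroup α)) (v : FreeGroup α), v.norm ≤ n →
    ∃ (E V : Type) (_ : Finite E) (_ : Finite V) (C : Cfg α E V),
      C.Inv (ψ v) ((ψ v).norm : ℤ) ∧ C.M.ncard ≤ B ∧ C.R.ncard ≤ B

/-- first phase -/
def Ph1S (α : Type) [DecidableEq α] : Prop :=
  ∀ B : ℕ, ∃ B' : ℕ, ∀ (E V : Type) [Finite E] [Finite V] (C : Cfg α E V) (V0 : FreeGroup α) (L : ℤ),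
    C.Inv V0 L → C.M.ncard ≤ B → C.R.ncard ≤ B →
    ∃ (E' V' : Type) (_ : Finite E') (_ : Finite V') (C' : Cfg α E' V'),
      C'.Inv V0 L ∧ C'.M.ncard ≤ B' ∧ C'.R.ncard ≤ B' ∧ C'.Thick

/-- second phase -/
def Ph2S (α : Type) [DecidableEq α] : Prop :=
  ∀ B : ℕ, ∃ B' : ℕ, ∀ (E V : Type) [Finite E] [Finite V] (C : Cfg α E V) (V0 : FreeGroup α) (L : ℤ),
    C.Inv V0 L → C.M.ncard ≤ B → C.R.ncard ≤ B → C.Thick →
    ∃ (E' V' : Type) (_ : Finite E') (_ : Finite V') (C' : Cfg α E' V'),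
      C'.Inv V0 L ∧ C'.M.ncard ≤ B' ∧ C'.R.ncard ≤ B' ∧ C'.Sing ∧ C'.Pure

/-- third phase -/
def EatS (α : Type) [DecidableEq α] : Prop :=
  ∀ (E V : Type) [Finite E] [Finite V] (C : Cfg α E V) (V0 : FreeGroup α) (L : ℤ),
    C.Inv V0 L → C.Sing → C.Pure →
    ∃ C' : Cfg α E V, C'.Inv V0 L ∧ C'.M.ncard ≤ C.M.ncard ∧ C'.R.ncard ≤ C.R.ncard ∧ C'.Heavy

/-- counting cells -/
def CountS (α : Type) [DecidableEq α] : Prop :=
  ∀ (E V : Type) [Finite E] [Finite V] (C : Cfg α E V) (V0 : FreeGroup α) (L : ℤ),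
    C.Inv V0 L → C.Heavy → ∀ c, C.hi c - C.lo c ≤ 2 * L

/-- free groups with bounded presentations have uniformly short bases -/
def FamS : Prop :=
  ∀ B : ℕ, ∃ κ : ℕ, ∀ (S : Type) [Finite S] (Rel : Set (List (S × Bool))) (A : Type) [Group A]
    [IsFreeGroup A] (η : S → A), Nat.card S ≤ B → (∀ l ∈ Rel, l.length ≤ B) →
    (∀ l ∈ Rel, ev η l = 1) → Subgroup.closure (Set.range η) = ⊤ →
    (∀ (Q : Type) [Group Q] (f : S → Q), (∀ l ∈ Rel, ev f l = 1) →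
      ∃ Φ : A →* Q, ∀ s, Φ (η s) = f s) →
    ∃ (ι : Type) (b : FreeGroupBasis ι A), ∀ s, ∃ m : List (ι × Bool), ev b m = η s ∧
      m.length ≤ κ ∧ ∀ x ∈ m, ∃ l : List (S × Bool), ev η l = b x.1 ∧ l.length ≤ κ

/-- extraction of the basis -/
def ExtrS (α : Type) [DecidableEq α] : Prop :=
  ∀ B : ℕ, ∃ K N : ℕ, ∀ (E V : Type) [Finite E] [Finite V] (C : Cfg α E V) (V0 : FreeGroup α)
    (L D : ℤ), C.Inv V0 L → C.M.ncard ≤ B → C.R.ncard ≤ B → (∀ c, C.hi c - C.lo c ≤ D) →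
    ∃ (θ : MulAut (FreeGroup α)) (h : FreeGroup α), (θ V0).norm ≤ K ∧
      ∀ x ∈ (θ V0).toWord, ((h⁻¹ * θ⁻¹ (FreeGroup.of x.1) * h).norm : ℤ) ≤ N * D

lemma exists_conj_tau {α : Type} [DecidableEq α] (g : FreeGroup α) :
    ∃ h : FreeGroup α, ((h * g * h⁻¹).norm : ℤ) = tau g := by
  have h1 := iInf_conj g
  obtain ⟨h, h2⟩ := Nat.sInf_mem (Set.range_nonempty (fun h : FreeGroup α => (h * g * h⁻¹).norm))
  refine ⟨h, ?_⟩
  rw [← h1]
  congr 1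

theorem KL_of (α : Type) [DecidableEq α] (h0 : InitS α) (h1 : Ph1S α) (h2 : Ph2S α) (h3 : EatS α)
    (h4 : CountS α) (h5 : ExtrS α) : KLs α := by
  intro v _
  obtain ⟨B0, h0⟩ := h0 v.norm
  obtain ⟨B1, h1⟩ := h1 B0
  obtain ⟨B2, h2⟩ := h2 B1
  obtain ⟨K, N, h5⟩ := h5 B2
  refine ⟨K, 2 * N, fun φ => ?_⟩
  obtain ⟨g, hg⟩ := exists_conj_tau (φ v)
  obtain ⟨E0, V0, _, _, C0, a1, a2, a3⟩ := h0 (MulAut.conj g * φ) v le_rfl
  obtain ⟨E1, V1, _, _, C1, b1, b2, b3, b4⟩ := h1 E0 V0 C0 _ _ a1 a2 a3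
  obtain ⟨E2, V2, _, _, C2, c1, c2, c3, c4, c5⟩ := h2 E1 V1 C1 _ _ b1 b2 b3 b4
  obtain ⟨C3, d1, d2, d3, d4⟩ := h3 E2 V2 C2 _ _ c1 c4 c5
  obtain ⟨θ, h, e1, e2⟩ := h5 E2 V2 C3 _ _ _ d1 (d2.trans c2) (d3.trans c3) (h4 E2 V2 C3 _ _ d1 d4)
  refine ⟨θ * (MulAut.conj g * φ), g⁻¹ * h, e1, fun x hx => ?_⟩
  have e3 := e2 x hx
  have e4 : (MulAut.conj g * φ) v = g * φ v * g⁻¹ := by simp
  rw [e4, hg] at e3
  have e5 : (g⁻¹ * h)⁻¹ * φ ((θ * (MulAut.conj g * φ))⁻¹ (FreeGroup.of x.1)) * (g⁻¹ * h) =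
      h⁻¹ * θ⁻¹ (FreeGroup.of x.1) * h := by
    simp only [mul_inv_rev, MulAut.mul_apply, MulAut.apply_inv_self, MulAut.conj_inv_apply]
    group
  rw [e5]
  push_cast
  linarith

end Pool.Agent.H8Z.BTE
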