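import Pool.Agent.H8Z.BTE.Split

set_option autoImplicit false
set_option linter.unusedSectionVars false
set_option linter.unusedSimpArgs false
set_option linter.unusedVariables false

/-! # Adding an edge -/

namespace Pool.Agent.H8Z.BTE

namespace Cfg

variable {α E V : Type} [DecidableEq α]

/-- a new edge with trivial label at a point -/
def addId (C : Cfg α E V) (c : V) (a : ℤ) (rl : Prop) : Cfg α (Option E) V where
  cp := fun e => e.elim (fun _ => c) C.cp
  w := fun e => e.elim 1 C.w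
  st := fun e => e.elim (fun _ => a) C.st
  dr := fun e => e.elim (fun _ => 1) C.dr
  k1 := fun e => e.elim 0 C.k1
  k2 := fun e => e.elim 0 C.k2
  lo := C.lo
  hi := C.hi
  pt := C.pt
  c0 := C.c0
  R := {e | e.elim rl (fun e => e ∈ C.R)}
  M := C.M

open Classical in
/-- cutting a band in two -/
noncomputable def addCp (C : Cfg α E V) (B : E) (k0 k0' : ℤ) : Cfg α (Option E) V where
  cp := fun e => C.cp (e.getD B)
  w := fun e => C.w (e.getD B)
  st := fun e => C.st (e.getD B)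
  dr := fun e => C.dr (e.getD B)
  k1 := fun e => e.elim k0' C.k1
  k2 := fun e => e.elim (C.k2 B) (fun e => if e = B then k0 else C.k2 e)
  lo := C.lo
  hi := C.hi
  pt := C.pt
  c0 := C.c0
  R := {e | e.getD B ∈ C.R}
  M := C.M

variable {C : Cfg α E V} {V0 : FreeGroup α} {L : ℤ}

section id

variable {c : V} {a : ℤ} {rl : Prop}

lemma addId_path {Q : Type} [Group Q] (f : Option E → Q) {p q : V × ℤ} {l : List (E × Bool)}
    (h : Pth C.Step p q l) :
    ∃ m, Pth (C.addId c a rl).Step p q m ∧ ev f m = ev (fun e => f (some e)) l := by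
  obtain ⟨m, h1, h2⟩ := Pth.sim (St' := (C.addId c a rl).Step) id (fun _ => (1 : Q))
    (fun e => f (some e)) f (by
      rintro p q ⟨e, s⟩ hs
      refine ⟨[(some e, s)], Pth.single hs, ?_⟩
      cases s <;> simp) h
  exact ⟨m, h1, by simpa using h2⟩

lemma addId_pre (h : C.Inv V0 L) (h1 : C.lo c ≤ a) (h2 : a ≤ C.hi c) :
    (C.addId c a rl).Pre V0 L none := by
  have G := h.geo
  refine ⟨⟨?_, ?_, ?_, ?_, G.adj, G.lh, G.lo0, G.hi0, G.pV, G.fin, ?_⟩, ?_, ?_, ?_, ?_⟩
  · rintro (_ | e) he s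
    · exact Or.inl rfl
    · exact G.dr1 e he s
  · rintro (_ | e) he
    · exact le_rfl
    · exact G.kle e he
  · rintro (_ | e) he s k h3 h4
    · have hk : k = 0 := le_antisymm h4 h3
      subst hk
      have : (C.addId c a rl).pos none s 0 = a := by simp [pos, addId]
      rw [this]
      exact ⟨h1, h2⟩
    · exact G.rng e he s k h3 h4
  · rintro (_ | e) he k h3 h4
    · exact one_mul _
    · exact G.eqn e he k h3 h4
  · obtain ⟨l, hl⟩ := G.gam
    obtain ⟨m, hm, _⟩ := addId_path (c := c) (a := a) (rl := rl) (Q := Unit) (fun _ => 1) hl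
    exact ⟨m, hm⟩
  · intro q
    obtain ⟨g, hg⟩ := h.tr (fun e => q (some e))
    refine ⟨g, ?_⟩
    rintro (_ | e) he k h3 h4
    · exact absurd (lt_of_le_of_lt h3 h4) (lt_irrefl _)
    · exact hg e he k h3 h4
  · intro Q _ f hf h3
    obtain ⟨φ, t, ht⟩ := h.ex Q (fun e => f (some e)) (by
      intro p l hl
      obtain ⟨m, h4, h5⟩ := addId_path (c := c) (a := a) (rl := rl) f hl
      rw [← h5]
      exact hf _ _ h4)
    refine ⟨φ, t, ?_⟩
    rintro (_ | e)
    · rw [h3]
      simp [tv, val, addId]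
    · exact ht e
  · intro Q _ H φ t h3 h4
    exact h.gen Q H φ t h3 h4
  · intro Q _ φ t
    simp [tv, val, addId]

lemma addId_wt (d : V) (i : ℤ) : (C.addId c a rl).wt d i = C.wt d i := by
  unfold wt
  symm
  refine Set.ncard_congr (fun β _ => (some β.1, β.2)) (fun β hβ => hβ) ?_ ?_
  · rintro ⟨e, s⟩ ⟨e', s'⟩ _ _ h
    simpa using h
  · rintro ⟨_ | e, s⟩ hβ
    · obtain ⟨_, _, k, h3, h4, _⟩ := hβ
      exact absurd (lt_of_le_of_lt h3 h4) (lt_irrefl _)
    · exact ⟨(e, s), hβ, rfl⟩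

lemma addId_R [Finite E] : (C.addId c a rl).R.ncard ≤ C.R.ncard + 1 := by
  have : (C.addId c a rl).R ⊆ insert none (some '' C.R) := by
    rintro (_ | e) he
    · exact Set.mem_insert _ _
    · exact Set.mem_insert_of_mem _ ⟨e, he, rfl⟩
  refine (Set.ncard_le_ncard this (Set.toFinite _)).trans ((Set.ncard_insert_le _ _).trans ?_)
  have := Set.ncard_image_le (f := some) (s := C.R) (Set.toFinite _)
  omega

lemma addId_steps [Finite E] : (C.addId c a False).steps.ncard ≤ C.steps.ncard := by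
  have : (C.addId c a False).steps ⊆ (fun y : E × ℤ => (some y.1, y.2)) '' C.steps := by
    rintro ⟨_ | e, k⟩ he
    · exact he.1.elim
    · exact ⟨(e, k), he, rfl⟩
  exact (Set.ncard_le_ncard this (steps_finite.image _)).trans (Set.ncard_image_le steps_finite)

end id

section cp

variable {B : E} {k0 k0' : ℤ}

lemma addCp_k2 {e : E} (h : e ≠ B) : (C.addCp B k0 k0').k2 (some e) = C.k2 e := by
  simp [addCp, h]

lemma addCp_k2' : (C.addCp B k0 k0').k2 (some B) = k0 := by
  simp [addCp]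

/-- the ranges of the new bands lie in the old ones -/
lemma addCp_rng (h1 : C.k1 B ≤ k0') (h2 : k0 ≤ C.k2 B) (e : Option E) :
    C.k1 (e.getD B) ≤ (C.addCp B k0 k0').k1 e ∧ (C.addCp B k0 k0').k2 e ≤ C.k2 (e.getD B) := by
  cases e with
  | none => exact ⟨h1, le_rfl⟩
  | some e =>
    refine ⟨le_rfl, ?_⟩
    by_cases h : e = B
    · subst h
      rw [addCp_k2']
      exact h2
    · rw [addCp_k2 h]
      exact le_rfl

lemma addCp_path (hk : k0' ≤ k0 + 1) {Q : Type} [Group Q] (f : Option E → Q)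
    (hf : f none = f (some B)) {p q : V × ℤ} {l : List (E × Bool)} (h : Pth C.Step p q l) :
    ∃ m, Pth (C.addCp B k0 k0').Step p q m ∧ ev f m = ev (fun e => f (some e)) l := by
  obtain ⟨m, h1, h2⟩ := Pth.sim (St' := (C.addCp B k0 k0').Step) id (fun _ => (1 : Q))
    (fun e => f (some e)) f (by
      rintro p q ⟨e, s⟩ ⟨a1, a2, a3, k, a4, a5, a6, a7⟩
      by_cases hc : e = B ∧ k0 < k
      · obtain ⟨rfl, hc⟩ := hc
        refine ⟨[(none, s)], Pth.single ⟨a1, a2, a3, k, ?_, a5, a6, a7⟩, ?_⟩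
        · change k0' ≤ k
          omega
        · cases s <;> simp [hf]
      · refine ⟨[(some e, s)], Pth.single ⟨a1, a2, a3, k, a4, ?_, a6, a7⟩, ?_⟩
        · by_cases h : e = B
          · subst h
            rw [addCp_k2']
            simpa using hc
          · rw [addCp_k2 h]
            exact a5
        · cases s <;> simp) h
  exact ⟨m, h1, by simpa using h2⟩

lemma addCp_pre (h : C.Inv V0 L) (hB : B ∈ C.R) (h1 : C.k1 B ≤ k0) (h2 : k0' ≤ C.k2 B)
    (h3 : k0 ≤ k0') (h4 : k0' ≤ k0 + 1) : (C.addCp B k0 k0').Pre V0 L (some B) := by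
  classical
  have G := h.geo
  have hr := addCp_rng (C := C) (B := B) (k0 := k0) (k0' := k0') (by omega) (by omega)
  refine ⟨⟨?_, ?_, ?_, ?_, G.adj, G.lh, G.lo0, G.hi0, G.pV, G.fin, ?_⟩, ?_, ?_, ?_, ?_⟩
  · intro e he s
    exact G.dr1 _ he s
  · rintro (_ | e) he
    · exact h2
    · by_cases h : e = B
      · subst h
        rw [addCp_k2']
        exact h1
      · rw [addCp_k2 h]
        exact G.kle e he
  · intro e he s k h5 h6
    exact G.rng _ he s k ((hr e).1.trans h5) (h6.trans (hr e).2)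
  · intro e he k h5 h6
    exact G.eqn _ he k ((hr e).1.trans h5) (h6.trans (hr e).2)
  · obtain ⟨l, hl⟩ := G.gam
    obtain ⟨m, hm, _⟩ := addCp_path (B := B) h4 (Q := Unit) (fun _ => 1) rfl hl
    exact ⟨m, hm⟩
  · intro q
    obtain ⟨g, hg⟩ := h.tr (fun e k => if e = B ∧ k0 ≤ k then q none k else q (some e) k)
    refine ⟨g, ?_⟩
    rintro (_ | e) he k h5 h6
    · have := hg B hB k ((hr none).1.trans h5) h6
      have h7 : k0' ≤ k := h5
      rw [if_pos ⟨rfl, by omega⟩] at this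
      exact this
    · have := hg e he k h5 (h6.trans_le (hr (some e)).2)
      rw [if_neg] at this
      · exact this
      · rintro ⟨rfl, h7⟩
        rw [addCp_k2'] at h6
        omega
  · intro Q _ f hf h5
    obtain ⟨φ, t, ht⟩ := h.ex Q (fun e => f (some e)) (by
      intro p l hl
      obtain ⟨m, h6, h7⟩ := addCp_path (B := B) h4 f h5 hl
      rw [← h7]
      exact hf _ _ h6)
    refine ⟨φ, t, ?_⟩
    rintro (_ | e)
    · rw [h5]
      exact ht B
    · exact ht e
  · intro Q _ H φ t h5 h6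
    exact h.gen Q H φ t h5 h6
  · intro Q _ φ t
    rfl

lemma addCp_cov (h1 : C.k1 B ≤ k0') (h2 : k0 ≤ C.k2 B) {e : Option E} {s : Bool} {d : V} {i : ℤ}
    (h : (C.addCp B k0 k0').Cov (e, s) d i) : C.Cov (e.getD B, s) d i := by
  obtain ⟨a1, a2, k, a3, a4, a5⟩ := h
  have hr := addCp_rng (C := C) (B := B) (k0 := k0) (k0' := k0') h1 h2 e
  exact ⟨a1, a2, k, hr.1.trans a3, a4.trans_le hr.2, a5⟩

lemma addCp_wt (G : C.Geo V0 L) (hB : B ∈ C.R) (h1 : C.k1 B ≤ k0) (h2 : k0 ≤ C.k2 B) (d : V)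
    (i : ℤ) : (C.addCp B k0 k0).wt d i = C.wt d i := by
  unfold wt
  refine Set.ncard_congr (fun β _ => (β.1.getD B, β.2)) (fun β hβ => addCp_cov h1 h2 hβ) ?_ ?_
  · have key : ∀ s, (C.addCp B k0 k0).Cov (none, s) d i →
        (C.addCp B k0 k0).Cov (some B, s) d i → False := by
      rintro s ⟨_, _, k, a3, _, a5⟩ ⟨_, _, k', _, b4, b5⟩
      rw [addCp_k2'] at b4
      have a3' : k0 ≤ k := a3
      have a5' : C.cpos B s k = 2 * i + 1 := a5
      have b5' : C.cpos B s k' = 2 * i + 1 := b5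
      rcases G.pos_cases hB s with ⟨_, _, q⟩ | ⟨_, _, q⟩ <;> rw [q] at a5' b5' <;> omega
    rintro ⟨_ | e, s⟩ ⟨_ | e', s'⟩ ha hb h <;>
      simp only [Option.getD_none, Option.getD_some, Prod.mk.injEq] at h
    · rw [h.2]
    · obtain ⟨rfl, rfl⟩ := h
      exact (key _ ha hb).elim
    · obtain ⟨rfl, rfl⟩ := h
      exact (key _ hb ha).elim
    · rw [h.1, h.2]
  · rintro ⟨e, s⟩ ⟨a1, a2, k, a3, a4, a5⟩
    by_cases hc : e = B ∧ k0 ≤ k
    · obtain ⟨rfl, hc⟩ := hc
      exact ⟨(none, s), ⟨a1, a2, k, hc, a4, a5⟩, rfl⟩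
    · refine ⟨(some e, s), ⟨a1, a2, k, a3, ?_, a5⟩, rfl⟩
      by_cases h : e = B
      · subst h
        rw [addCp_k2']
        simpa using hc
      · rw [addCp_k2 h]
        exact a4

lemma addCp_R [Finite E] : (C.addCp B k0 k0').R.ncard ≤ C.R.ncard + 1 := by
  have : (C.addCp B k0 k0').R ⊆ insert none (some '' C.R) := by
    rintro (_ | e) he
    · exact Set.mem_insert _ _
    · exact Set.mem_insert_of_mem _ ⟨e, he, rfl⟩
  refine (Set.ncard_le_ncard this (Set.toFinite _)).trans ((Set.ncard_insert_le _ _).trans ?_)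
  have := Set.ncard_image_le (f := some) (s := C.R) (Set.toFinite _)
  omega

lemma addCp_steps [Finite E] (h1 : C.k1 B ≤ k0 + 1) (h2 : k0 ≤ C.k2 B) :
    (C.addCp B k0 (k0 + 1)).steps.ncard ≤ C.steps.ncard := by
  refine Set.ncard_le_ncard_of_injOn (fun y => (y.1.getD B, y.2)) ?_ ?_ steps_finite
  · rintro ⟨e, k⟩ ⟨a1, a2, a3, a4, a5⟩
    have hr := addCp_rng (C := C) (B := B) (k0 := k0) (k0' := k0 + 1) h1 h2 e
    exact ⟨a1, hr.1.trans a2, a3.trans hr.2, a4, a5⟩
  · have key : ∀ k, (none, k) ∈ (C.addCp B k0 (k0 + 1)).steps →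
        (some B, k) ∈ (C.addCp B k0 (k0 + 1)).steps → False := by
      rintro k ⟨_, a2, _⟩ ⟨_, _, b3, _⟩
      rw [addCp_k2'] at b3
      have a2' : k0 + 1 ≤ k := a2
      simp only at b3
      omega
    rintro ⟨_ | e, s⟩ ha ⟨_ | e', s'⟩ hb h <;>
      simp only [Option.getD_none, Option.getD_some, Prod.mk.injEq] at h
    · rw [h.2]
    · obtain ⟨rfl, rfl⟩ := h
      exact (key _ ha hb).elim
    · obtain ⟨rfl, rfl⟩ := h
      exact (key _ hb ha).elim
    · rw [h.1, h.2]

/-- cutting a band at a marked level -/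
lemma addCp_inv (h : C.Inv V0 L) (hB : B ∈ C.R) (h1 : C.k1 B ≤ k0) (h2 : k0 ≤ C.k2 B)
    (hM : ∀ s, C.P B s k0 ∈ C.M) : (C.addCp B k0 k0).Inv V0 L := by
  have hp := addCp_pre (k0' := k0) h hB h1 h2 le_rfl (by omega)
  refine ⟨hp.geo, fun Q _ f hf => hp.ex Q f hf ?_,
    fun Q _ H φ t h3 h4 => hp.gen Q H φ t (fun e => h3 _) h4, hp.tr⟩
  have s1 : (C.addCp B k0 k0).Step (C.P B false k0) (C.P B true k0) (some B, true) :=
    ⟨hB, hM _, hM _, k0, h1, by rw [addCp_k2'], rfl, rfl⟩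
  have s2 : (C.addCp B k0 k0).Step (C.P B true k0) (C.P B false k0) (none, false) :=
    ⟨hB, hM _, hM _, k0, le_rfl, h2, rfl, rfl⟩
  have := hf _ _ (Pth.cons (Pth.single s1) s2)
  simp only [ev_cons, lv_false, lv_true, ev_nil, mul_one] at this
  exact inv_mul_eq_one.1 this

end cp

end Cfg

end Pool.Agent.H8Z.BTE
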