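import Mathlib

set_option autoImplicit false
set_option linter.unusedSectionVars false
set_option linter.unusedSimpArgs false
set_option linter.unusedVariables false

/-! # Systems of bands with a marking: definitions -/

namespace Pool.Agent.H8Z.BTE

section paths

variable {P X : Type}

/-- paths for a labelled step relation; the last step is the head of the list -/
inductive Pth (St : P → P → X → Prop) : P → P → List X → Prop
  | nil (a : P) : Pth St a a []
  | cons {a b c : P} {x : X} {l : List X} : Pth St a b l → St b c x → Pth St a c (x :: l)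

lemma Pth.append {St : P → P → X → Prop} {a b c : P} {l m : List X} (h : Pth St a b l)
    (h' : Pth St b c m) : Pth St a c (m ++ l) := by
  induction h' with
  | nil => exact h
  | cons _ s ih => exact Pth.cons ih s

lemma Pth.single {St : P → P → X → Prop} {a b : P} {x : X} (h : St a b x) : Pth St a b [x] :=
  Pth.cons (Pth.nil a) h

lemma Pth.mono {St St' : P → P → X → Prop} (hs : ∀ a b x, St a b x → St' a b x) {a b : P}
    {l : List X} (h : Pth St a b l) : Pth St' a b l := by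
  induction h with
  | nil => exact Pth.nil _
  | cons _ s ih => exact Pth.cons ih (hs _ _ _ s)

/-- simple paths with the list of visited points -/
inductive SP (St : P → P → X → Prop) (a : P) : P → List X → List P → Prop
  | nil : SP St a a [] [a]
  | cons {b c : P} {x : X} {l : List X} {vs : List P} :
      SP St a b l vs → St b c x → c ∉ vs → SP St a c (x :: l) (c :: vs)

lemma SP.pth {St : P → P → X → Prop} {a b : P} {l : List X} {vs : List P} (h : SP St a b l vs) :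
    Pth St a b l := by
  induction h with
  | nil => exact Pth.nil _
  | cons _ s _ ih => exact Pth.cons ih s

lemma SP.len {St : P → P → X → Prop} {M : Set P} (hM : M.Finite) (hs : ∀ a b x, St a b x → b ∈ M)
    {a b : P} {l : List X} {vs : List P} (h : SP St a b l vs) : l.length ≤ M.ncard := by
  classical
  have h1 : vs.Nodup ∧ vs.length = l.length + 1 ∧ ∀ p ∈ vs, p ∈ insert a M := by
    induction h with
    | nil => simp
    | cons _ s hn ih =>
      refine ⟨List.nodup_cons.2 ⟨hn, ih.1⟩, by simp [ih.2.1], ?_⟩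
      intro p hp
      rcases List.mem_cons.1 hp with rfl | hp
      · exact Set.mem_insert_of_mem _ (hs _ _ _ s)
      · exact ih.2.2 p hp
  have h2 : vs.length = (vs.toFinset : Set P).ncard := by
    rw [Set.ncard_coe_finset, List.toFinset_card_of_nodup h1.1]
  have h3 : (vs.toFinset : Set P).ncard ≤ (insert a M).ncard :=
    Set.ncard_le_ncard (fun p hp => h1.2.2 p (by simpa using hp)) (hM.insert a)
  have h4 := Set.ncard_insert_le a M
  omega

lemma SP.split {St : P → P → X → Prop} {a b : P} {l : List X} {vs : List P} (h : SP St a b l vs)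
    {c : P} (hc : c ∈ vs) : ∃ l1 l2 vs1, l = l2 ++ l1 ∧ SP St a c l1 vs1 ∧ Pth St c b l2 := by
  induction h with
  | nil =>
    rw [List.mem_singleton] at hc
    subst hc
    exact ⟨[], [], _, rfl, SP.nil, Pth.nil _⟩
  | @cons b d x l vs h s hn ih =>
    rcases List.mem_cons.1 hc with rfl | hc
    · exact ⟨x :: l, [], _, rfl, SP.cons h s hn, Pth.nil _⟩
    · obtain ⟨l1, l2, vs1, h1, h2, h3⟩ := ih hc
      exact ⟨l1, x :: l2, vs1, by rw [h1]; rfl, h2, Pth.cons h3 s⟩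

end paths

section values

variable {E Q : Type} [Group Q]

/-- value of a letter -/
def lv (f : E → Q) (x : E × Bool) : Q := cond x.2 (f x.1) (f x.1)⁻¹

/-- value of a word -/
def ev (f : E → Q) (l : List (E × Bool)) : Q := (l.map (lv f)).prod

@[simp] lemma lv_true (f : E → Q) (e : E) : lv f (e, true) = f e := rfl
@[simp] lemma lv_false (f : E → Q) (e : E) : lv f (e, false) = (f e)⁻¹ := rfl
@[simp] lemma ev_nil (f : E → Q) : ev f [] = 1 := rfl
@[simp] lemma ev_cons (f : E → Q) (x : E × Bool) (l : List (E × Bool)) :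
    ev f (x :: l) = lv f x * ev f l := by simp [ev]
lemma ev_append (f : E → Q) (l m : List (E × Bool)) : ev f (l ++ m) = ev f l * ev f m := by
  simp [ev]
lemma lv_not (f : E → Q) (e : E) (s : Bool) : lv f (e, !s) = (lv f (e, s))⁻¹ := by
  cases s <;> simp

lemma map_ev {Q' : Type} [Group Q'] (φ : Q →* Q') (f : E → Q) (l : List (E × Bool)) :
    φ (ev f l) = ev (fun e => φ (f e)) l := by
  induction l with
  | nil => simp
  | cons x l ih =>
    obtain ⟨e, s⟩ := x
    rw [ev_cons, ev_cons, map_mul, ih]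
    cases s <;> simp

lemma ev_congr {f g : E → Q} {l : List (E × Bool)} (h : ∀ x ∈ l, f x.1 = g x.1) :
    ev f l = ev g l := by
  induction l with
  | nil => simp
  | cons x l ih =>
    rw [ev_cons, ev_cons, ih fun y hy => h y (List.mem_cons_of_mem _ hy)]
    have := h x (by simp)
    unfold lv
    rw [this]

lemma Pth.rev {P : Type} {St : P → P → E × Bool → Prop}
    (hs : ∀ a b e s, St a b (e, s) → St b a (e, !s)) {a b : P} {l : List (E × Bool)}
    (h : Pth St a b l) : ∃ m, Pth St b a m ∧ ∀ f : E → Q, ev f m = (ev f l)⁻¹ := by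
  induction h with
  | nil => exact ⟨[], Pth.nil _, by simp⟩
  | @cons b c x l _ s ih =>
    obtain ⟨m, h1, h2⟩ := ih
    obtain ⟨e, s'⟩ := x
    refine ⟨m ++ [(e, !s')], (Pth.single (hs _ _ _ _ s)).append h1, fun f => ?_⟩
    rw [ev_append, h2, ev_cons, ev_cons, ev_nil, lv_not]
    group

/-- simulation of paths -/
lemma Pth.sim {P P' E' : Type} {St : P → P → E × Bool → Prop} {St' : P' → P' → E' × Bool → Prop}
    (μ : P → P') (u : P → Q) (f : E → Q) (f' : E' → Q)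
    (hs : ∀ a b x, St a b x → ∃ m, Pth St' (μ a) (μ b) m ∧ ev f' m = u b * lv f x * (u a)⁻¹)
    {a b : P} {l : List (E × Bool)} (h : Pth St a b l) :
    ∃ m, Pth St' (μ a) (μ b) m ∧ ev f' m = u b * ev f l * (u a)⁻¹ := by
  induction h with
  | nil => exact ⟨[], Pth.nil _, by simp⟩
  | cons _ s ih =>
    obtain ⟨m, h1, h2⟩ := ih
    obtain ⟨m', h3, h4⟩ := hs _ _ _ s
    refine ⟨m' ++ m, h1.append h3, ?_⟩
    rw [ev_append, h2, h4, ev_cons]
    group

/-- shortening of paths -/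
lemma Pth.short {P : Type} {St : P → P → E × Bool → Prop} {M : Set P} (hM : M.Finite)
    (hs : ∀ a b x, St a b x → b ∈ M) {a b : P} {l : List (E × Bool)} (h : Pth St a b l) :
    ∃ m, Pth St a b m ∧ m.length ≤ M.ncard ∧ ∀ f : E → Q,
      (∀ c l, Pth St c c l → l.length ≤ M.ncard + 1 → ev f l = 1) → ev f l = ev f m := by
  have key : ∃ m vs, SP St a b m vs ∧ ∀ f : E → Q,
      (∀ c l, Pth St c c l → l.length ≤ M.ncard + 1 → ev f l = 1) → ev f l = ev f m := by
    induction h with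
    | nil => exact ⟨[], _, SP.nil, fun _ _ => rfl⟩
    | @cons b c x l _ s ih =>
      obtain ⟨m, vs, h1, h2⟩ := ih
      by_cases hc : c ∈ vs
      · obtain ⟨l1, l2, vs1, h3, h4, h5⟩ := h1.split hc
        refine ⟨l1, vs1, h4, fun f hf => ?_⟩
        have h6 := h1.len hM hs
        have h7 := hf c (x :: l2) (Pth.cons h5 s) (by
          rw [h3, List.length_append] at h6
          simp only [List.length_cons]
          omega)
        rw [ev_cons, h2 f hf, h3, ev_append, ← mul_assoc, ← ev_cons, h7, one_mul]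
      · exact ⟨x :: m, _, SP.cons h1 s hc, fun f hf => by rw [ev_cons, ev_cons, h2 f hf]⟩
  obtain ⟨m, vs, h1, h2⟩ := key
  exact ⟨m, h1.pth, h1.len hM hs, h2⟩

end values

/-- a configuration: components (segments) indexed by `V`, bands indexed by `E` -/
structure Cfg (α E V : Type) where
  cp : E → Bool → V
  w : E → FreeGroup α
  st : E → Bool → ℤ
  dr : E → Bool → ℤ
  k1 : E → ℤ
  k2 : E → ℤ
  lo : V → ℤ
  hi : V → ℤ
  pt : V → ℤ → FreeGroup α
  c0 : V
  R : Set E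
  M : Set (V × ℤ)

namespace Cfg

variable {α E V : Type} [DecidableEq α] (C : Cfg α E V)

def pos (e : E) (s : Bool) (k : ℤ) : ℤ := C.st e s + C.dr e s * k

def cpos (e : E) (s : Bool) (k : ℤ) : ℤ := 2 * C.st e s + C.dr e s * (2 * k + 1)

def P (e : E) (s : Bool) (k : ℤ) : V × ℤ := (C.cp e s, C.pos e s k)

def Step (a b : V × ℤ) (x : E × Bool) : Prop :=
  x.1 ∈ C.R ∧ a ∈ C.M ∧ b ∈ C.M ∧
    ∃ k, C.k1 x.1 ≤ k ∧ k ≤ C.k2 x.1 ∧ a = C.P x.1 (!x.2) k ∧ b = C.P x.1 x.2 k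

def val {Q : Type} [Group Q] (φ : FreeGroup α →* Q) (t : V → Q) (e : E) : Q :=
  t (C.cp e true) * φ (C.w e) * (t (C.cp e false))⁻¹

def Kills {Q : Type} [Group Q] (f : E → Q) : Prop := ∀ a l, Pth C.Step a a l → ev f l = 1

def Ex : Prop := ∀ (Q : Type) [Group Q] (f : E → Q), C.Kills f →
  ∃ (φ : FreeGroup α →* Q) (t : V → Q), ∀ e, f e = C.val φ t e

def Gen : Prop := ∀ (Q : Type) [Group Q] (H : Subgroup Q) (φ : FreeGroup α →* Q) (t : V → Q),
  (∀ e, C.val φ t e ∈ H) → t C.c0 ∈ H → (∀ g, φ g ∈ H) ∧ ∀ c, t c ∈ H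

def Tr : Prop := ∀ q : E → ℤ → ℚ, ∃ g : V → ℤ → ℚ, ∀ e ∈ C.R, ∀ k, C.k1 e ≤ k → k < C.k2 e →
  g (C.cp e true) (C.cpos e true k) - g (C.cp e false) (C.cpos e false k) = q e k

def Cov (β : E × Bool) (c : V) (i : ℤ) : Prop :=
  β.1 ∈ C.R ∧ C.cp β.1 β.2 = c ∧ ∃ k, C.k1 β.1 ≤ k ∧ k < C.k2 β.1 ∧ C.cpos β.1 β.2 k = 2 * i + 1

noncomputable def wt (c : V) (i : ℤ) : ℕ := {β | C.Cov β c i}.ncard

def cells : Set (V × ℤ) := {p | C.lo p.1 ≤ p.2 ∧ p.2 < C.hi p.1}

def steps : Set (E × ℤ) :=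
  {y | y.1 ∈ C.R ∧ C.k1 y.1 ≤ y.2 ∧ y.2 ≤ C.k2 y.1 ∧ C.P y.1 false y.2 ∈ C.M ∧
    C.P y.1 true y.2 ∈ C.M}

def Sing : Prop := ∀ e ∈ C.R, ∀ s, C.P e s (C.k1 e) ∈ C.M ∧ C.P e s (C.k2 e) ∈ C.M

structure Geo (V0 : FreeGroup α) (L : ℤ) : Prop where
  dr1 : ∀ e ∈ C.R, ∀ s, C.dr e s = 1 ∨ C.dr e s = -1
  kle : ∀ e ∈ C.R, C.k1 e ≤ C.k2 e
  rng : ∀ e ∈ C.R, ∀ s k, C.k1 e ≤ k → k ≤ C.k2 e →
    C.lo (C.cp e s) ≤ C.pos e s k ∧ C.pos e s k ≤ C.hi (C.cp e s)
  eqn : ∀ e ∈ C.R, ∀ k, C.k1 e ≤ k → k ≤ C.k2 e →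
    C.w e * C.pt (C.cp e false) (C.pos e false k) = C.pt (C.cp e true) (C.pos e true k)
  adj : ∀ c i, C.lo c ≤ i → i < C.hi c → ((C.pt c i)⁻¹ * C.pt c (i + 1)).norm ≤ 1
  lh : ∀ c, C.lo c ≤ C.hi c
  lo0 : C.lo C.c0 = 0
  hi0 : C.hi C.c0 = L
  pV : C.pt C.c0 L = V0 * C.pt C.c0 0
  fin : C.M.Finite
  gam : ∃ l, Pth C.Step (C.c0, 0) (C.c0, L) l

structure Inv (V0 : FreeGroup α) (L : ℤ) : Prop where
  geo : C.Geo V0 L
  ex : C.Ex
  gen : C.Gen
  tr : C.Tr

variable {C}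

lemma Step.symm {a b : V × ℤ} {e : E} {s : Bool} (h : C.Step a b (e, s)) :
    C.Step b a (e, !s) := by
  obtain ⟨h1, h2, h3, k, h4, h5, h6, h7⟩ := h
  exact ⟨h1, h3, h2, k, h4, h5, by simpa using h7, h6⟩

lemma lv_val {Q : Type} [Group Q] (φ : FreeGroup α →* Q) (t : V → Q) (e : E) (s : Bool) :
    lv (C.val φ t) (e, s) = t (C.cp e s) * φ (lv C.w (e, s)) * (t (C.cp e (!s)))⁻¹ := by
  cases s
  · simp only [lv_false, val, map_inv, Bool.not_false]
    group
  · simp only [lv_true, val, Bool.not_true]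

lemma Geo.lab {V0 : FreeGroup α} {L : ℤ} (h : C.Geo V0 L) {e : E} (he : e ∈ C.R) (s : Bool)
    {k : ℤ} (h1 : C.k1 e ≤ k) (h2 : k ≤ C.k2 e) :
    lv C.w (e, s) * C.pt (C.cp e (!s)) (C.pos e (!s) k) = C.pt (C.cp e s) (C.pos e s k) := by
  have := h.eqn e he k h1 h2
  cases s
  · simp only [lv_false, Bool.not_false, ← this]
    group
  · simpa using this

lemma Geo.path_lab {V0 : FreeGroup α} {L : ℤ} (h : C.Geo V0 L) {a b : V × ℤ}
    {l : List (E × Bool)} (hp : Pth C.Step a b l) :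
    ev C.w l * C.pt a.1 a.2 = C.pt b.1 b.2 := by
  induction hp with
  | nil => simp
  | @cons b c x l _ s ih =>
    obtain ⟨e, s'⟩ := x
    obtain ⟨h1, h2, h3, k, h4, h5, h6, h7⟩ := s
    rw [ev_cons, mul_assoc, ih, h6, h7]
    exact h.lab h1 s' h4 h5

lemma Geo.pos_cases {V0 : FreeGroup α} {L : ℤ} (h : C.Geo V0 L) {e : E} (he : e ∈ C.R)
    (s : Bool) :
    (C.dr e s = 1 ∧ (∀ k, C.pos e s k = C.st e s + k) ∧
        ∀ k, C.cpos e s k = 2 * C.st e s + (2 * k + 1)) ∨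
      (C.dr e s = -1 ∧ (∀ k, C.pos e s k = C.st e s - k) ∧
        ∀ k, C.cpos e s k = 2 * C.st e s - (2 * k + 1)) := by
  rcases h.dr1 e he s with h1 | h1
  · left
    refine ⟨h1, fun k => ?_, fun k => ?_⟩
    · simp [pos, h1]
    · simp [cpos, h1]
  · right
    refine ⟨h1, fun k => ?_, fun k => ?_⟩
    · simp only [pos, h1]; ring
    · simp only [cpos, h1]; ring

lemma cells_finite [Finite V] : C.cells.Finite := by
  have : C.cells ⊆ ⋃ c : V, (fun i => (c, i)) '' Set.Ico (C.lo c) (C.hi c) := by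
    rintro ⟨c, i⟩ hp
    exact Set.mem_iUnion.2 ⟨c, i, hp, rfl⟩
  exact (Set.finite_iUnion fun c => (Set.finite_Ico _ _).image _).subset this

lemma steps_finite [Finite E] : C.steps.Finite := by
  have : C.steps ⊆ ⋃ e : E, (fun i => (e, i)) '' Set.Icc (C.k1 e) (C.k2 e) := by
    rintro ⟨e, i⟩ hp
    exact Set.mem_iUnion.2 ⟨e, i, ⟨hp.2.1, hp.2.2.1⟩, rfl⟩
  exact (Set.finite_iUnion fun c => (Set.finite_Icc _ _).image _).subset this

/-- enlarging the set of marked points -/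
lemma Inv.enlarge {V0 : FreeGroup α} {L : ℤ} (h : C.Inv V0 L) {M' : Set (V × ℤ)}
    (hM : C.M ⊆ M') (hf : M'.Finite) : ({ C with M := M' } : Cfg α E V).Inv V0 L := by
  have hs : ∀ a b x, C.Step a b x → ({ C with M := M' } : Cfg α E V).Step a b x :=
    fun a b x hx => ⟨hx.1, hM hx.2.1, hM hx.2.2.1, hx.2.2.2⟩
  obtain ⟨l, hl⟩ := h.geo.gam
  refine ⟨⟨h.geo.dr1, h.geo.kle, h.geo.rng, h.geo.eqn, h.geo.adj, h.geo.lh, h.geo.lo0, h.geo.hi0,
    h.geo.pV, hf, l, hl.mono hs⟩, ?_, h.gen, h.tr⟩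
  intro Q _ f hf
  exact h.ex Q f fun a l hl => hf a l (hl.mono hs)

/-- forgetting the bands which are not used by marked paths -/
lemma Inv.demote {V0 : FreeGroup α} {L : ℤ} (h : C.Inv V0 L) :
    ({ C with R := Prod.fst '' C.steps } : Cfg α E V).Inv V0 L := by
  have hR : Prod.fst '' C.steps ⊆ C.R := by
    rintro _ ⟨y, hy, rfl⟩
    exact hy.1
  have hs : ∀ a b x, C.Step a b x →
      ({ C with R := Prod.fst '' C.steps } : Cfg α E V).Step a b x := by
    rintro a b ⟨e, s⟩ ⟨h1, h2, h3, k, h4, h5, h6, h7⟩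
    refine ⟨⟨(e, k), ⟨h1, h4, h5, ?_, ?_⟩, rfl⟩, h2, h3, k, h4, h5, h6, h7⟩
    · cases s
      · exact h7 ▸ h3
      · exact h6 ▸ h2
    · cases s
      · exact h6 ▸ h2
      · exact h7 ▸ h3
  obtain ⟨l, hl⟩ := h.geo.gam
  refine ⟨⟨fun e he => h.geo.dr1 e (hR he), fun e he => h.geo.kle e (hR he),
    fun e he => h.geo.rng e (hR he), fun e he => h.geo.eqn e (hR he), h.geo.adj, h.geo.lh,
    h.geo.lo0, h.geo.hi0, h.geo.pV, h.geo.fin, l, hl.mono hs⟩, ?_, h.gen, ?_⟩
  · intro Q _ f hf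
    exact h.ex Q f fun a l hl => hf a l (hl.mono hs)
  · intro q
    obtain ⟨g, hg⟩ := h.tr q
    exact ⟨g, fun e he => hg e (hR he)⟩

end Cfg

end Pool.Agent.H8Z.BTE
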