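import Pool.Agent.H8Z.BTE.AddE
import Pool.Agent.H8Z.BTE.Iface

set_option autoImplicit false
set_option linter.unusedSectionVars false
set_option linter.unusedSimpArgs false
set_option linter.unusedVariables false

/-! # First phase: removing the cells which are covered at most once -/

namespace Pool.Agent.H8Z.BTE

namespace Cfg

variable {α E V : Type} [DecidableEq α]

/-- the ends of real bands which reach beyond `a` -/
def gsd (C : Cfg α E V) (c : V) (a : ℤ) (e : E) (s : Bool) : Prop :=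
  e ∈ C.R ∧ C.cp e s = c ∧ ∃ k, C.k1 e ≤ k ∧ k ≤ C.k2 e ∧ a < C.pos e s k

variable {C : Cfg α E V} {V0 : FreeGroup α} {L : ℤ} {c : V} {a : ℤ}

lemma gsd_not {e : E} (he : e ∈ C.R) {s : Bool} {k : ℤ} (h1 : C.k1 e ≤ k) (h2 : k ≤ C.k2 e)
    (h3 : C.cp e s = c) (h : ¬ C.gsd c a e s) : C.pos e s k ≤ a := by
  by_contra h4
  exact h ⟨he, h3, k, h1, h2, by omega⟩

lemma gsd_gap (G : C.Geo V0 L) {e : E} {s : Bool} (hn : ¬ C.Cov (e, s) c a) {k : ℤ}
    (h1 : C.k1 e ≤ k) (h2 : k ≤ C.k2 e) (h : C.gsd c a e s) : a + 1 ≤ C.pos e s k := by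
  obtain ⟨he, h3, k', h4, h5, h6⟩ := h
  by_contra h7
  apply hn
  rcases G.pos_cases he s with ⟨_, q1, q2⟩ | ⟨_, q1, q2⟩ <;> rw [q1] at h6 h7
  · exact ⟨he, h3, a - C.st e s, by simp only; omega, by simp only; omega, by
      simp only; rw [q2]; omega⟩
  · exact ⟨he, h3, C.st e s - a - 1, by simp only; omega, by simp only; omega, by
      simp only; rw [q2]; omega⟩

section vs

variable {sd : E → Bool → Prop}

lemma vs_M (G : C.Geo V0 L) {b : ℤ} {X : Set (Option V × ℤ)} (hX : X.Finite) :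
    (C.vs c a b sd X).M.ncard ≤ C.M.ncard + X.ncard := by
  refine (Set.ncard_union_le _ _).trans ?_
  have := Set.ncard_image_le (f := mu c a) G.fin
  omega

lemma vs_steps [Finite E] (S : Side C c a (a + 1) sd) :
    (C.vs c a (a + 1) sd ∅).steps.ncard ≤ C.steps.ncard := by
  refine Set.ncard_le_ncard ?_ steps_finite
  rintro ⟨e, k⟩ ⟨a1, a2, a3, a4, a5⟩
  have key : ∀ s, (C.vs c a (a + 1) sd ∅).P e s k ∈ (C.vs c a (a + 1) sd ∅).M → C.P e s k ∈ C.M := by
    intro s hs
    rcases S.P_eq (X := ∅) a1 s a2 a3 with h | ⟨h, _⟩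
    · rw [h] at hs
      rcases hs with ⟨p, h1, h2⟩ | hs
      · rw [← mu_inj c a h2]
        exact h1
      · exact hs.elim
    · omega
  exact ⟨a1, a2, a3, key _ a4, key _ a5⟩

lemma vs_cells [Finite V] (S : Side C c a (a + 1) sd) {X : Set (Option V × ℤ)} :
    (C.vs c a (a + 1) sd X).cells.ncard < C.cells.ncard := by
  have hm : (c, a) ∈ C.cells := ⟨S.ha, by have := S.hb; simp only; omega⟩
  have h1 : (C.vs c a (a + 1) sd X).cells.ncard ≤ (C.cells \ {(c, a)}).ncard := by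
    refine Set.ncard_le_ncard_of_injOn (nu c) ?_ S.nu_inj (cells_finite.subset Set.diff_subset)
    rintro ⟨d, i⟩ hp
    obtain ⟨h2, h3, h4⟩ := S.cells hp
    refine ⟨h2, fun h => ?_⟩
    simp only [nu, Set.mem_singleton_iff, Prod.mk.injEq] at h
    obtain ⟨h5, rfl⟩ := h
    cases d with
    | none => have := h3 rfl; simp only at this; omega
    | some d =>
      simp only [Option.getD_some] at h5
      subst h5
      have := h4 rfl
      simp only at this
      omega
  exact h1.trans_lt (Set.ncard_diff_singleton_lt_of_mem hm cells_finite)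

end vs

/-- the sides used with a new trivial edge -/
def isd (C : Cfg α E V) (c : V) (a : ℤ) (e : Option E) (s : Bool) : Prop :=
  e.elim (s = true) (fun e => C.gsd c a e s)

lemma isd_twist {b : ℤ} {rl : Prop} {X : Set (Option V × ℤ)} {Q : Type} [Group Q]
    (f : Option E → Q) (x : Q) :
    twist ((C.addId c a rl).vs c a b (C.isd c a) X) x f none = x⁻¹ * f none := by
  simp [twist, vs, isd, uu]

lemma remove0 [Finite E] [Finite V] (h : C.Inv V0 L) (hc : c ≠ C.c0) (h1 : C.lo c ≤ a)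
    (h2 : a < C.hi c) (hn : ∀ β, ¬ C.Cov β c a) :
    ∃ C' : Cfg α (Option E) (Option V), C'.Inv V0 L ∧ C'.M.ncard ≤ C.M.ncard ∧
      C'.steps.ncard ≤ C.steps.ncard ∧ C'.cells.ncard < C.cells.ncard := by
  have hp := addId_pre (c := c) (a := a) (rl := False) h h1 h2.le
  have S : Side (C.addId c a False) c a (a + 1) (C.isd c a) := by
    refine ⟨hc, Or.inr rfl, h1, h2, ?_, ?_⟩
    · rintro (_ | e) s hs
      · rfl
      · exact hs.2.1
    · rintro (_ | e) he s k h3 h4 h5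
      · exact he.elim
      · exact ⟨fun h6 => gsd_gap h.geo (hn _) h3 h4 h6, fun h6 => gsd_not he h3 h4 h5 h6⟩
  refine ⟨(C.addId c a False).vs c a (a + 1) (C.isd c a) ∅, hp.split S Set.finite_empty ?_ ?_,
    ?_, (vs_steps S).trans addId_steps, vs_cells S⟩
  · intro Q _ f
    exact ⟨f none, by rw [isd_twist]; simp [tv], fun h => by omega⟩
  · intro Q _ H f x h3 h4
    rw [isd_twist] at h4
    have : x = f none := inv_mul_eq_one.1 h4
    rw [this]
    exact h3 _
  · have := vs_M (c := c) (a := a) (b := a + 1) (sd := C.isd c a) hp.geo Set.finite_empty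
    rw [Set.ncard_empty, add_zero] at this
    exact this

lemma solve_cp {D : Cfg α (Option E) (Option V)} {B : E} {σ : Bool}
    (h1 : D.cp none (!σ) = D.cp (some B) (!σ))
    (h2 : (D.cp none σ = none ∧ ∃ d, D.cp (some B) σ = some d) ∨
      ((∃ d, D.cp none σ = some d) ∧ D.cp (some B) σ = none)) {Q : Type} [Group Q]
    (f : Option E → Q) :
    ∃ y ∈ Subgroup.closure (Set.range f), ∀ x,
      twist D x f none = tv (some B) (twist D x f) ↔ x = y := by
  have m1 : f none ∈ Subgroup.closure (Set.range f) := Subgroup.subset_closure ⟨_, rfl⟩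
  have m2 : f (some B) ∈ Subgroup.closure (Set.range f) := Subgroup.subset_closure ⟨_, rfl⟩
  cases σ
  · simp only [Bool.not_false] at h1
    rcases h2 with ⟨h2, d, h3⟩ | ⟨⟨d, h2⟩, h3⟩
    · refine ⟨(f none)⁻¹ * f (some B), mul_mem (inv_mem m1) m2, fun x => ?_⟩
      simp only [twist, tv, Option.elim, h1, h2, h3, mul_assoc, mul_right_inj]
      simp only [uu, Option.elim, mul_one]
      exact eq_inv_mul_iff_mul_eq.symm
    · refine ⟨(f (some B))⁻¹ * f none, mul_mem (inv_mem m2) m1, fun x => ?_⟩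
      simp only [twist, tv, Option.elim, h1, h2, h3, mul_assoc, mul_right_inj]
      simp only [uu, Option.elim, mul_one]
      rw [eq_comm]
      exact eq_inv_mul_iff_mul_eq.symm
  · simp only [Bool.not_true] at h1
    rcases h2 with ⟨h2, d, h3⟩ | ⟨⟨d, h2⟩, h3⟩
    · refine ⟨f none * (f (some B))⁻¹, mul_mem m1 (inv_mem m2), fun x => ?_⟩
      simp only [twist, tv, Option.elim, h1, h2, h3, mul_left_inj]
      simp only [uu, Option.elim, inv_one, one_mul]
      rw [inv_mul_eq_iff_eq_mul, eq_mul_inv_iff_mul_eq, eq_comm]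
    · refine ⟨f (some B) * (f none)⁻¹, mul_mem m2 (inv_mem m1), fun x => ?_⟩
      simp only [twist, tv, Option.elim, h1, h2, h3, mul_left_inj]
      simp only [uu, Option.elim, inv_one, one_mul]
      rw [eq_comm, inv_mul_eq_iff_eq_mul, eq_mul_inv_iff_mul_eq, eq_comm]

lemma remove1 [Finite E] [Finite V] (h : C.Inv V0 L) (hc : c ≠ C.c0) (h1 : C.lo c ≤ a)
    (h2 : a < C.hi c) {B : E} {σ : Bool} (hB : C.Cov (B, σ) c a)
    (hn : ∀ β, C.Cov β c a → β = (B, σ)) :
    ∃ C' : Cfg α (Option E) (Option V), C'.Inv V0 L ∧ C'.M.ncard ≤ C.M.ncard ∧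
      C'.steps.ncard ≤ C.steps.ncard ∧ C'.cells.ncard < C.cells.ncard := by
  obtain ⟨b1, b2, k0, b3, b4, b5⟩ := hB
  simp only at b1 b2 b3 b4 b5
  have G := h.geo
  have hp := addCp_pre (k0 := k0) (k0' := k0 + 1) h b1 b3 b4 (by omega) le_rfl
  have hcov : ∀ β, ¬ (C.addCp B k0 (k0 + 1)).Cov β c a := by
    rintro ⟨e, s⟩ hβ
    have h3 := hn _ (addCp_cov (by omega) b4.le hβ)
    simp only [Prod.mk.injEq] at h3
    obtain ⟨h3, rfl⟩ := h3
    obtain ⟨_, _, k, a3, a4, a5⟩ := hβ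
    have a5' : C.cpos (e.getD B) s k = 2 * a + 1 := a5
    rw [h3] at a5'
    have hk : k = k0 := by
      rcases G.pos_cases b1 s with ⟨_, _, q⟩ | ⟨_, _, q⟩ <;> rw [q] at a5' b5 <;> omega
    subst hk
    cases e with
    | none =>
      have : k + 1 ≤ k := a3
      omega
    | some e =>
      simp only [Option.getD_some] at h3
      subst h3
      rw [addCp_k2'] at a4
      omega
  set D := C.addCp B k0 (k0 + 1) with hD
  have S : Side D c a (a + 1) (D.gsd c a) :=
    ⟨hc, Or.inr rfl, h1, h2, fun e s hs => hs.2.1, fun e he s k h3 h4 h5 =>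
      ⟨fun h6 => gsd_gap hp.geo (hcov _) h3 h4 h6, fun h6 => gsd_not he h3 h4 h5 h6⟩⟩
  have n1 : D.k1 none ≤ k0 + 1 := le_rfl
  have n2 : k0 + 1 ≤ D.k2 none := b4
  have n3 : D.k1 (some B) ≤ k0 := b3
  have n4 : k0 ≤ D.k2 (some B) := by rw [hD, addCp_k2']
  have r1 : none ∈ D.R := b1
  have r2 : some B ∈ D.R := b1
  have p1 : ∀ s k, D.pos none s k = C.pos B s k := fun _ _ => rfl
  have p2 : ∀ s k, D.pos (some B) s k = C.pos B s k := fun _ _ => rfl
  have c1 : ∀ s, D.cp none s = C.cp B s := fun _ => rfl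
  have c2 : ∀ s, D.cp (some B) s = C.cp B s := fun _ => rfl
  have e1 : (D.vs c a (a + 1) (D.gsd c a) ∅).cp none (!σ) =
      (D.vs c a (a + 1) (D.gsd c a) ∅).cp (some B) (!σ) := by
    have hnc : ¬ C.Cov (B, !σ) c a := by
      intro h3
      have := hn _ h3
      simp at this
    have : D.gsd c a none (!σ) ↔ D.gsd c a (some B) (!σ) := by
      constructor
      · rintro ⟨_, a2, k, a3, a4, a5⟩
        have a3' : k0 + 1 ≤ k := a3
        have := gsd_gap G hnc b3 b4.le ⟨b1, a2, k, by omega, a4, a5⟩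
        exact ⟨r2, a2, k0, n3, n4, by rw [p2]; omega⟩
      · rintro ⟨_, a2, k, a3, a4, a5⟩
        rw [hD, addCp_k2'] at a4
        have := gsd_gap G hnc (k := k0 + 1) (by omega) b4 ⟨b1, a2, k, a3, by omega, a5⟩
        exact ⟨r1, a2, k0 + 1, n1, n2, by rw [p1]; omega⟩
    by_cases g1 : D.gsd c a none (!σ)
    · simp [vs, g1, this.1 g1]
    · have g2 : ¬ D.gsd c a (some B) (!σ) := fun g => g1 (this.2 g)
      simp [vs, g1, g2, c1, c2]
  have e2 : ((D.vs c a (a + 1) (D.gsd c a) ∅).cp none σ = none ∧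
      ∃ d, (D.vs c a (a + 1) (D.gsd c a) ∅).cp (some B) σ = some d) ∨
      ((∃ d, (D.vs c a (a + 1) (D.gsd c a) ∅).cp none σ = some d) ∧
        (D.vs c a (a + 1) (D.gsd c a) ∅).cp (some B) σ = none) := by
    rcases G.pos_cases b1 σ with ⟨_, q1, q2⟩ | ⟨_, q1, q2⟩ <;> rw [q2] at b5
    · left
      have g1 : D.gsd c a none σ := ⟨r1, b2, k0 + 1, n1, n2, by rw [p1, q1]; omega⟩
      have g2 : ¬ D.gsd c a (some B) σ := by
        intro g2
        have := gsd_gap hp.geo (hcov _) n3 n4 g2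
        rw [p2, q1] at this
        omega
      simp [vs, g1, g2]
    · right
      have g1 : D.gsd c a (some B) σ := ⟨r2, b2, k0, n3, n4, by rw [p2, q1]; omega⟩
      have g2 : ¬ D.gsd c a none σ := by
        intro g2
        have := gsd_gap hp.geo (hcov _) n1 n2 g2
        rw [p1, q1] at this
        omega
      simp [vs, g1, g2]
  refine ⟨D.vs c a (a + 1) (D.gsd c a) ∅, hp.split S Set.finite_empty ?_ ?_,
    ?_, (vs_steps S).trans (addCp_steps (by omega) b4.le), vs_cells S⟩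
  · intro Q _ f
    obtain ⟨y, _, hy⟩ := solve_cp e1 e2 f
    exact ⟨y, (hy y).2 rfl, fun h => by omega⟩
  · intro Q _ H f x h3 h4
    obtain ⟨y, hy1, hy⟩ := solve_cp e1 e2 f
    rw [(hy x).1 h4]
    refine (Subgroup.closure_le H).2 ?_ hy1
    rintro _ ⟨e, rfl⟩
    exact h3 e
  · have := vs_M (c := c) (a := a) (b := a + 1) (sd := D.gsd c a) hp.geo Set.finite_empty
    rw [Set.ncard_empty, add_zero] at this
    exact this

lemma remove_cell [Finite E] [Finite V] (h : C.Inv V0 L) (hc : c ≠ C.c0) (h1 : C.lo c ≤ a)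
    (h2 : a < C.hi c) (hw : C.wt c a < 2) :
    ∃ C' : Cfg α (Option E) (Option V), C'.Inv V0 L ∧ C'.M.ncard ≤ C.M.ncard ∧
      C'.steps.ncard ≤ C.steps.ncard ∧ C'.cells.ncard < C.cells.ncard := by
  by_cases hn : ∃ β, C.Cov β c a
  · obtain ⟨⟨B, σ⟩, hB⟩ := hn
    refine remove1 h hc h1 h2 hB fun β hβ => ?_
    exact (Set.ncard_le_one_iff (s := {β | C.Cov β c a}) (Set.toFinite _)).1
      (by unfold wt at hw; omega) hβ hB
  · exact remove0 h hc h1 h2 fun β hβ => hn ⟨β, hβ⟩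

lemma steps_le [Finite E] (G : C.Geo V0 L) : C.steps.ncard ≤ C.R.ncard * C.M.ncard := by
  rw [← Set.ncard_prod]
  refine Set.ncard_le_ncard_of_injOn (fun y => (y.1, C.P y.1 false y.2)) ?_ ?_
    ((Set.toFinite _).prod G.fin)
  · rintro ⟨e, k⟩ hy
    exact ⟨hy.1, hy.2.2.2.1⟩
  · rintro ⟨e, k⟩ hy ⟨e', k'⟩ _ h
    simp only [P, Prod.mk.injEq] at h
    obtain ⟨rfl, _, h⟩ := h
    rcases G.pos_cases hy.1 false with ⟨_, q, _⟩ | ⟨_, q, _⟩ <;> simp only at q <;>
      rw [q, q] at h <;> congr 1 <;> omega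

end Cfg

theorem ph1_aux (α : Type) [DecidableEq α] (V0 : FreeGroup α) (L : ℤ) (n : ℕ) :
    ∀ (E V : Type) [Finite E] [Finite V] (C : Cfg α E V), C.cells.ncard < n → C.Inv V0 L →
    ∃ (E' V' : Type) (_ : Finite E') (_ : Finite V') (C' : Cfg α E' V'),
      C'.Inv V0 L ∧ C'.M.ncard ≤ C.M.ncard ∧ C'.R.ncard ≤ C.steps.ncard ∧ C'.Thick := by
  induction n with
  | zero => intro E V _ _ C h; omega
  | succ n ih =>
    intro E V _ _ C hn h
    set D : Cfg α E V := { C with R := Prod.fst '' C.steps } with hD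
    have h1 : D.Inv V0 L := h.demote
    have h2 : D.R.ncard ≤ C.steps.ncard := Set.ncard_image_le Cfg.steps_finite
    have h3 : D.steps.ncard ≤ C.steps.ncard := by
      refine Set.ncard_le_ncard ?_ Cfg.steps_finite
      rintro ⟨e, k⟩ ⟨⟨y, a1, a2⟩, a3⟩
      exact ⟨a2 ▸ a1.1, a3⟩
    by_cases ht : D.Thick
    · exact ⟨E, V, inferInstance, inferInstance, D, h1, le_rfl, h2, ht⟩
    · unfold Cfg.Thick at ht
      push Not at ht
      obtain ⟨c, a, a1, a2, a3, a4⟩ := ht
      obtain ⟨C', b1, b2, b3, b4⟩ := Cfg.remove_cell h1 a1 a2 a3 a4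
      have b5 : D.cells = C.cells := rfl
      obtain ⟨E', V', _, _, C'', d1, d2, d3, d4⟩ := ih _ _ C' (by rw [b5] at b4; omega) b1
      exact ⟨E', V', inferInstance, inferInstance, C'', d1, d2.trans b2, d3.trans (b3.trans h3), d4⟩

theorem ph1S (α : Type) [DecidableEq α] : Ph1S α := by
  intro B
  refine ⟨B * B + B, fun E V _ _ C V0 L h h1 h2 => ?_⟩
  obtain ⟨E', V', _, _, C', d1, d2, d3, d4⟩ := ph1_aux α V0 L _ E V C (Nat.lt_succ_self _) h
  refine ⟨E', V', inferInstance, inferInstance, C', d1, by omega, ?_, d4⟩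
  have := Cfg.steps_le h.geo
  have := Nat.mul_le_mul h2 h1
  omega

end Pool.Agent.H8Z.BTE
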