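import Pool.Agent.H8Z.BTE.Ph1

set_option autoImplicit false
set_option linter.unusedSectionVars false
set_option linter.unusedSimpArgs false
set_option linter.unusedVariables false

/-! # Second phase: cutting the components into pure ones -/

namespace Pool.Agent.H8Z.BTE

namespace Cfg

variable {α E V : Type} [DecidableEq α]

/-- the ends of real bands which contain a point in the interior -/
def cross (C : Cfg α E V) (c : V) (a : ℤ) : Set (E × Bool) :=
  {β | β.1 ∈ C.R ∧ C.cp β.1 β.2 = c ∧ ∃ k, C.k1 β.1 < k ∧ k < C.k2 β.1 ∧ C.pos β.1 β.2 k = a}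

/-- the points where the type of the cells changes -/
def TC (C : Cfg α E V) : Set (V × ℤ) :=
  {p | p.1 ≠ C.c0 ∧ C.lo p.1 < p.2 ∧ p.2 < C.hi p.1 ∧
    ¬ (C.wt p.1 (p.2 - 1) = 2 ↔ C.wt p.1 p.2 = 2)}

/-- the corners of the real bands -/
def ends (C : Cfg α E V) : Set (V × ℤ) :=
  (fun y : E × Bool × Bool => C.P y.1 y.2.1 (cond y.2.2 (C.k1 y.1) (C.k2 y.1))) ''
    (C.R ×ˢ Set.univ)

variable {C : Cfg α E V} {V0 : FreeGroup α} {L : ℤ} {c : V} {a : ℤ}

lemma ends_finite [Finite E] : C.ends.Finite := (Set.toFinite _).image _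

lemma ends_card [Finite E] : C.ends.ncard ≤ 4 * C.R.ncard := by
  refine (Set.ncard_image_le (Set.toFinite _)).trans ?_
  rw [Set.ncard_prod, Set.ncard_univ]
  simp [mul_comm]

lemma mem_ends1 {e : E} (he : e ∈ C.R) (s : Bool) : C.P e s (C.k1 e) ∈ C.ends :=
  ⟨(e, s, true), ⟨he, trivial⟩, rfl⟩

lemma mem_ends2 {e : E} (he : e ∈ C.R) (s : Bool) : C.P e s (C.k2 e) ∈ C.ends :=
  ⟨(e, s, false), ⟨he, trivial⟩, rfl⟩

lemma TC_sub (G : C.Geo V0 L) : C.TC ⊆ C.ends := by
  rintro ⟨c, a⟩ ⟨_, _, _, h⟩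
  by_contra hn
  apply h
  have : C.wt c (a - 1) = C.wt c a := by
    unfold wt
    congr 1
    ext ⟨e, s⟩
    have key : e ∈ C.R → C.cp e s = c → C.pos e s (C.k1 e) ≠ a ∧ C.pos e s (C.k2 e) ≠ a := by
      intro h1 h2
      constructor
      · intro h3
        exact hn (by have := mem_ends1 h1 s; rwa [P, h2, h3] at this)
      · intro h3
        exact hn (by have := mem_ends2 h1 s; rwa [P, h2, h3] at this)
    constructor
    · rintro ⟨h1, h2, k, h3, h4, h5⟩
      simp only at h1 h2 h3 h4 h5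
      obtain ⟨k1, k2⟩ := key h1 h2
      rcases G.pos_cases h1 s with ⟨_, q1, q2⟩ | ⟨_, q1, q2⟩ <;> rw [q1] at k1 k2 <;>
        rw [q2] at h5
      · exact ⟨h1, h2, k + 1, by simp only; omega, by simp only; omega, by
          simp only; rw [q2]; omega⟩
      · exact ⟨h1, h2, k - 1, by simp only; omega, by simp only; omega, by
          simp only; rw [q2]; omega⟩
    · rintro ⟨h1, h2, k, h3, h4, h5⟩
      simp only at h1 h2 h3 h4 h5
      obtain ⟨k1, k2⟩ := key h1 h2
      rcases G.pos_cases h1 s with ⟨_, q1, q2⟩ | ⟨_, q1, q2⟩ <;> rw [q1] at k1 k2 <;>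
        rw [q2] at h5
      · exact ⟨h1, h2, k - 1, by simp only; omega, by simp only; omega, by
          simp only; rw [q2]; omega⟩
      · exact ⟨h1, h2, k + 1, by simp only; omega, by simp only; omega, by
          simp only; rw [q2]; omega⟩
  simp only [this]

lemma pure_of_TC (ht : C.Thick) (h : C.TC = ∅) : C.Pure := by
  intro c hc
  have key : ∀ i, C.lo c ≤ i → i < C.hi c → (C.wt c i = 2 ↔ C.wt c (C.lo c) = 2) := by
    intro i hi
    induction i, hi using Int.le_induction with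
    | base => intro _; rfl
    | succ i hi ih =>
      intro h1
      rw [← ih (by omega)]
      by_contra h2
      have : (c, i + 1) ∈ C.TC := ⟨hc, by simp only; omega, h1, by
        simp only [add_sub_cancel_right]
        exact fun h3 => h2 h3.symm⟩
      rw [h] at this
      exact this
  by_cases h1 : C.wt c (C.lo c) = 2
  · exact Or.inl fun i h2 h3 => (key i h2 h3).2 h1
  · refine Or.inr fun i h2 h3 => ?_
    have := ht c i hc h2 h3
    have := (key i h2 h3).not.2 h1
    omega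

lemma cross_lt [Finite E] (G : C.Geo V0 L) {B : E} {σ : Bool} {k0 : ℤ} (hB : B ∈ C.R)
    (h0 : C.cp B σ = c) (h1 : C.k1 B < k0) (h2 : k0 < C.k2 B) (h3 : C.pos B σ k0 = a) :
    ((C.addCp B k0 k0).cross c a).ncard < (C.cross c a).ncard := by
  have hm : (B, σ) ∈ C.cross c a := ⟨hB, h0, k0, h1, h2, h3⟩
  have hr := addCp_rng (C := C) (B := B) (k0 := k0) (k0' := k0) h1.le h2.le
  have inj : ∀ s k k', C.pos B s k = C.pos B s k' → k = k' := by
    intro s k k' h
    rcases G.pos_cases hB s with ⟨_, q, _⟩ | ⟨_, q, _⟩ <;> rw [q, q] at h <;> omega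
  refine lt_of_le_of_lt (Set.ncard_le_ncard_of_injOn (t := C.cross c a \ {(B, σ)})
    (fun β => (β.1.getD B, β.2)) ?_ ?_ (Set.toFinite _))
    (Set.ncard_diff_singleton_lt_of_mem hm (Set.toFinite _))
  · rintro ⟨e, s⟩ ⟨a1, a2, k, a3, a4, a5⟩
    refine ⟨⟨a1, a2, k, (hr e).1.trans_lt a3, a4.trans_le (hr e).2, a5⟩, fun h => ?_⟩
    simp only [Set.mem_singleton_iff, Prod.mk.injEq] at h
    obtain ⟨h4, rfl⟩ := h
    have a5' : C.pos (e.getD B) s k = a := a5
    rw [h4, ← h3] at a5'
    have := inj _ _ _ a5'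
    subst this
    cases e with
    | none => exact lt_irrefl _ a3
    | some e =>
      simp only [Option.getD_some] at h4
      subst h4
      simp only at a4
      rw [addCp_k2'] at a4
      exact lt_irrefl _ a4
  · have key : ∀ s, (none, s) ∈ (C.addCp B k0 k0).cross c a →
        (some B, s) ∈ (C.addCp B k0 k0).cross c a → False := by
      rintro s ⟨_, _, k, a3, _, a5⟩ ⟨_, _, k', _, b4, b5⟩
      simp only at b4
      rw [addCp_k2'] at b4
      have a3' : k0 < k := a3
      have a5' : C.pos B s k = a := a5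
      have b5' : C.pos B s k' = a := b5
      have := inj s k k' (a5'.trans b5'.symm)
      omega
    rintro ⟨_ | e, s⟩ ha ⟨_ | e', s'⟩ hb h <;>
      simp only [Option.getD_none, Option.getD_some, Prod.mk.injEq] at h
    · rw [h.2]
    · obtain ⟨rfl, rfl⟩ := h
      exact (key _ ha hb).elim
    · obtain ⟨rfl, rfl⟩ := h
      exact (key _ hb ha).elim
    · rw [h.1, h.2]

lemma uncross (c : V) (a : ℤ) (m : ℕ) : ∀ (E : Type) [Finite E] (C : Cfg α E V), C.Inv V0 L →
    (C.cross c a).ncard ≤ m → ∃ (E' : Type) (_ : Finite E') (C' : Cfg α E' V), C'.Inv V0 L ∧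
      C'.M.ncard ≤ C.M.ncard + 2 * m ∧ C'.R.ncard ≤ C.R.ncard + m ∧ C'.cross c a = ∅ ∧
      C'.lo = C.lo ∧ C'.hi = C.hi ∧ C'.c0 = C.c0 ∧ C'.wt = C.wt := by
  induction m with
  | zero =>
    intro E _ C h h1
    exact ⟨E, inferInstance, C, h, le_rfl, le_rfl,
      (Set.ncard_eq_zero (Set.toFinite _)).1 (by omega), rfl, rfl, rfl, rfl⟩
  | succ m ih =>
    intro E _ C h h1
    by_cases h2 : C.cross c a = ∅
    · exact ⟨E, inferInstance, C, h, by omega, by omega, h2, rfl, rfl, rfl, rfl⟩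
    obtain ⟨⟨B, σ⟩, b1, b2, k0, b3, b4, b5⟩ := Set.nonempty_iff_ne_empty.2 h2
    simp only at b1 b2 b3 b4 b5
    set D : Cfg α E V := { C with M := insert (C.P B false k0) (insert (C.P B true k0) C.M) }
      with hD
    have d1 : D.Inv V0 L := h.enlarge ((Set.subset_insert _ _).trans (Set.subset_insert _ _))
      ((h.geo.fin.insert _).insert _)
    have d2 : (D.addCp B k0 k0).Inv V0 L := addCp_inv d1 b1 b3.le b4.le (by
      rintro (_ | _)
      · exact Set.mem_insert _ _
      · exact Set.mem_insert_of_mem _ (Set.mem_insert _ _))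
    have d3 := cross_lt (c := c) (a := a) d1.geo b1 b2 b3 b4 b5
    have d4 : D.cross c a = C.cross c a := rfl
    rw [d4] at d3
    obtain ⟨E', _, C', e1, e2, e3, e4, e5, e6, e7, e8⟩ := ih _ _ d2 (by omega)
    refine ⟨E', inferInstance, C', e1, ?_, ?_, e4, e5, e6, e7, ?_⟩
    · have f1 : (D.addCp B k0 k0).M = insert (C.P B false k0) (insert (C.P B true k0) C.M) := rfl
      rw [f1] at e2
      have := Set.ncard_insert_le (C.P B false k0) (insert (C.P B true k0) C.M)
      have := Set.ncard_insert_le (C.P B true k0) C.M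
      omega
    · have f1 : (D.addCp B k0 k0).R.ncard ≤ C.R.ncard + 1 := addCp_R (C := D)
      omega
    · rw [e8]
      funext d i
      exact addCp_wt d1.geo b1 b3.le b4.le d i

lemma cut [Finite E] [Finite V] (h : C.Inv V0 L) (hc : (c, a) ∈ C.TC) (hx : C.cross c a = ∅)
    (ht : C.Thick) :
    ∃ C' : Cfg α (Option E) (Option V), C'.Inv V0 L ∧ C'.M.ncard ≤ C.M.ncard + 2 ∧
      C'.R.ncard ≤ C.R.ncard + 1 ∧ C'.Thick ∧ C'.TC.ncard < C.TC.ncard := by
  have hc1 : c ≠ C.c0 := hc.1
  have hc2 : C.lo c < a := hc.2.1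
  have hc3 : a < C.hi c := hc.2.2.1
  set D : Cfg α E V := { C with M := insert (c, a) C.M } with hD
  have d1 : D.Inv V0 L := h.enlarge (Set.subset_insert _ _) (h.geo.fin.insert _)
  have G := h.geo
  have hp := addId_pre (c := c) (a := a) (rl := True) d1 hc2.le hc3.le
  have S : Side (D.addId c a True) c a a (D.isd c a) := by
    refine ⟨hc1, Or.inl rfl, hc2.le, hc3.le, ?_, ?_⟩
    · rintro (_ | e) s hs
      · rfl
      · exact hs.2.1
    · rintro (_ | e) he s k h3 h4 h5
      · have hk : k = 0 := le_antisymm h4 h3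
        subst hk
        have : (D.addId c a True).pos none s 0 = a := by simp [pos, addId]
        rw [this]
        exact ⟨fun _ => le_rfl, fun _ => le_rfl⟩
      · refine ⟨?_, fun h6 => gsd_not (C := D) he h3 h4 h5 h6⟩
        rintro ⟨_, _, k', a1, a2, a3⟩
        change C.k1 e ≤ k at h3
        change k ≤ C.k2 e at h4
        change C.k1 e ≤ k' at a1
        change k' ≤ C.k2 e at a2
        change a < C.pos e s k' at a3
        change a ≤ C.pos e s k
        by_contra h6
        have hn : (e, s) ∉ C.cross c a := by rw [hx]; exact id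
        apply hn
        rcases G.pos_cases he s with ⟨_, q, _⟩ | ⟨_, q, _⟩ <;> rw [q] at a3 h6
        · exact ⟨he, h5, a - C.st e s, by simp only; omega, by simp only; omega, by
            simp only; rw [q]; omega⟩
        · exact ⟨he, h5, C.st e s - a, by simp only; omega, by simp only; omega, by
            simp only; rw [q]; omega⟩
  set C' := (D.addId c a True).vs c a a (D.isd c a) {(none, a)} with hC'
  have hw : ∀ p ∈ C'.cells, C'.wt p.1 p.2 = C.wt (nu c p).1 p.2 := by
    intro p hp'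
    rw [S.wt hp.geo hp', addId_wt]
    rfl
  have hne : ∀ p : Option V × ℤ, p.1 ≠ C'.c0 → (nu c p).1 ≠ C.c0 := by
    rintro ⟨_ | d, i⟩ h1
    · exact hc1
    · intro h2
      exact h1 (congrArg some h2)
  refine ⟨C', hp.split S (Set.finite_singleton _) ?_ ?_, ?_, addId_R (C := D) (c := c) (a := a) (rl := True),
    ?_, ?_⟩
  · intro Q _ f
    refine ⟨f none, by rw [isd_twist]; simp [tv], fun _ => ⟨rfl, [(none, true)], Pth.single
      ⟨trivial, Or.inl ⟨(c, a), Set.mem_insert _ _, mu_self c a⟩, Or.inr rfl, 0, le_rfl, le_rfl,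
        ?_, ?_⟩, by simp⟩⟩
    · simp [P, pos, vs, isd, addId]
    · simp [P, pos, vs, isd, addId]
  · intro Q _ H f x h3 h4
    rw [isd_twist] at h4
    have : x = f none := inv_mul_eq_one.1 h4
    rw [this]
    exact h3 _
  · have f1 := vs_M (c := c) (a := a) (b := a) (sd := D.isd c a) hp.geo
      (Set.finite_singleton ((none : Option V), a))
    rw [Set.ncard_singleton] at f1
    have f2 : (D.addId c a True).M = insert (c, a) C.M := rfl
    rw [f2, ← hC'] at f1
    have := Set.ncard_insert_le (c, a) C.M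
    omega
  · intro d i h1 h2 h3
    have h4 : (d, i) ∈ C'.cells := ⟨h2, h3⟩
    have h5 := (S.cells h4).1
    have h6 := hw _ h4
    simp only at h6
    rw [h6]
    exact ht _ _ (hne (d, i) h1) h5.1 h5.2
  · have hf : C.TC.Finite := cells_finite.subset fun p hp => ⟨hp.2.1.le, hp.2.2.1⟩
    refine lt_of_le_of_lt (Set.ncard_le_ncard_of_injOn (t := C.TC \ {(c, a)}) (nu c) ?_
      (S.nu_inj.mono (fun p hp => ⟨hp.2.1.le, hp.2.2.1⟩ : C'.TC ⊆ C'.cells))
      (hf.subset Set.diff_subset))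
      (Set.ncard_diff_singleton_lt_of_mem hc hf)
    rintro ⟨d, i⟩ ⟨h1, h2, h3, h4⟩
    simp only at h1 h2 h3 h4
    have h5 : (d, i) ∈ C'.cells := ⟨h2.le, h3⟩
    have h6 : (d, i - 1) ∈ C'.cells := ⟨by simp only; omega, by simp only; omega⟩
    have h7 := hw _ h5
    have h8 := hw _ h6
    simp only at h7 h8
    rw [h7, h8] at h4
    obtain ⟨a1, a2, a3⟩ := S.cells h5
    obtain ⟨b1, b2, b3⟩ := S.cells h6
    refine ⟨⟨hne (d, i) h1, ?_, a1.2, h4⟩, fun h => ?_⟩
    · have : C.lo (nu c (d, i)).1 ≤ i - 1 := b1.1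
      change C.lo (nu c (d, i)).1 < i
      omega
    · simp only [nu, Set.mem_singleton_iff, Prod.mk.injEq] at h
      obtain ⟨h9, rfl⟩ := h
      cases d with
      | none => have := b2 rfl; simp only at this; omega
      | some d =>
        simp only [Option.getD_some] at h9
        subst h9
        have := a3 rfl
        simp only at this
        omega

end Cfg

theorem ph2_aux (α : Type) [DecidableEq α] (n : ℕ) : ∀ B : ℕ, ∃ B' : ℕ,
    ∀ (E V : Type) [Finite E] [Finite V] (C : Cfg α E V) (V0 : FreeGroup α) (L : ℤ),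
    C.TC.ncard ≤ n → C.Inv V0 L → C.M.ncard ≤ B → C.R.ncard ≤ B → C.Thick →
    ∃ (E' V' : Type) (_ : Finite E') (_ : Finite V') (C' : Cfg α E' V'),
      C'.Inv V0 L ∧ C'.M.ncard ≤ B' ∧ C'.R.ncard ≤ B' ∧ C'.Thick ∧ C'.TC = ∅ := by
  induction n with
  | zero =>
    intro B
    refine ⟨B, fun E V _ _ C V0 L h0 h h1 h2 h3 =>
      ⟨E, V, inferInstance, inferInstance, C, h, h1, h2, h3, ?_⟩⟩
    exact (Set.ncard_eq_zero (Cfg.ends_finite.subset (Cfg.TC_sub h.geo))).1 (by omega)
  | succ n ih =>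
    intro B
    obtain ⟨B', hB'⟩ := ih (5 * B + 2)
    refine ⟨B + B', fun E V _ _ C V0 L h0 h h1 h2 h3 => ?_⟩
    by_cases h4 : C.TC = ∅
    · exact ⟨E, V, inferInstance, inferInstance, C, h, by omega, by omega, h3, h4⟩
    obtain ⟨⟨c, a⟩, hc⟩ := Set.nonempty_iff_ne_empty.2 h4
    have h5 : (C.cross c a).ncard ≤ 2 * B := by
      have : C.cross c a ⊆ C.R ×ˢ Set.univ := fun β hβ => ⟨hβ.1, trivial⟩
      have := Set.ncard_le_ncard this (Set.toFinite _)
      rw [Set.ncard_prod, Set.ncard_univ] at this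
      simp only [Nat.card_eq_fintype_card, Fintype.card_bool] at this
      omega
    obtain ⟨E1, _, C1, a1, a2, a3, a4, a5, a6, a7, a8⟩ := Cfg.uncross c a _ E C h h5
    have a9 : C1.TC = C.TC := by
      unfold Cfg.TC
      rw [a5, a6, a7, a8]
    have a10 : C1.Thick := by
      unfold Cfg.Thick
      rw [a5, a6, a7, a8]
      exact h3
    obtain ⟨C2, b1, b2, b3, b4, b5⟩ := Cfg.cut a1 (a9 ▸ hc) a4 a10
    rw [a9] at b5
    obtain ⟨E', V', _, _, C', d1, d2, d3, d4, d5⟩ :=
      hB' _ _ C2 V0 L (by omega) b1 (by omega) (by omega) b4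
    exact ⟨E', V', inferInstance, inferInstance, C', d1, by omega, by omega, d4, d5⟩

theorem ph2S (α : Type) [DecidableEq α] : Ph2S α := by
  intro B
  obtain ⟨B', hB'⟩ := ph2_aux α (4 * B) B
  refine ⟨5 * B', fun E V _ _ C V0 L h h1 h2 h3 => ?_⟩
  have h4 : C.TC.ncard ≤ 4 * B := by
    have := Set.ncard_le_ncard (Cfg.TC_sub h.geo) Cfg.ends_finite
    have := Cfg.ends_card (C := C)
    omega
  obtain ⟨E', V', _, _, C', d1, d2, d3, d4, d5⟩ := hB' E V C V0 L h4 h h1 h2 h3
  refine ⟨E', V', inferInstance, inferInstance, { C' with M := C'.M ∪ C'.ends },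
    d1.enlarge Set.subset_union_left (d1.geo.fin.union Cfg.ends_finite), ?_, ?_, ?_,
    Cfg.pure_of_TC (C := C') d4 d5⟩
  · have := Set.ncard_union_le C'.M C'.ends
    have := Cfg.ends_card (C := C')
    change (C'.M ∪ C'.ends).ncard ≤ _
    omega
  · change C'.R.ncard ≤ _
    omega
  · intro e he s
    exact ⟨Or.inr (Cfg.mem_ends1 he s), Or.inr (Cfg.mem_ends2 he s)⟩

end Pool.Agent.H8Z.BTE
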