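import Pool.Agent.H8Z.BTE.Core

set_option autoImplicit false
set_option linter.unusedSectionVars false
set_option linter.unusedSimpArgs false
set_option linter.unusedVariables false

/-! # Splitting a component -/

namespace Pool.Agent.H8Z.BTE

namespace Cfg

variable {α E V : Type} [DecidableEq α]

open Classical in
noncomputable def mu (c : V) (a : ℤ) (p : V × ℤ) : Option V × ℤ :=
  if p.1 = c ∧ a < p.2 then (none, p.2) else (some p.1, p.2)

def nu (c : V) (p : Option V × ℤ) : V × ℤ := (p.1.getD c, p.2)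

lemma nu_mu (c : V) (a : ℤ) (p : V × ℤ) : nu c (mu c a p) = p := by
  unfold mu nu
  split_ifs with h
  · simp [← h.1]
  · simp

lemma mu_inj (c : V) (a : ℤ) : Function.Injective (mu c a) :=
  Function.LeftInverse.injective (nu_mu c a)

open Classical in
noncomputable def vs (C : Cfg α E V) (c : V) (a b : ℤ) (sd : E → Bool → Prop)
    (X : Set (Option V × ℤ)) : Cfg α E (Option V) where
  cp := fun e s => if sd e s then none else some (C.cp e s)
  w := C.w
  st := C.st
  dr := C.dr
  k1 := C.k1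
  k2 := C.k2
  lo := fun d => d.elim b C.lo
  hi := fun d => d.elim (C.hi c) (fun d => if d = c then a else C.hi d)
  pt := fun d => C.pt (d.getD c)
  c0 := some C.c0
  R := C.R
  M := mu c a '' C.M ∪ X

def uu {Q : Type} [Group Q] (x : Q) (d : Option V) : Q := d.elim x (fun _ => 1)

def twist {Q : Type} [Group Q] (C : Cfg α E (Option V)) (x : Q) (f : E → Q) (e : E) : Q :=
  (uu x (C.cp e true))⁻¹ * f e * uu x (C.cp e false)

structure Side (C : Cfg α E V) (c : V) (a b : ℤ) (sd : E → Bool → Prop) : Prop where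
  hc : c ≠ C.c0
  hab : b = a ∨ b = a + 1
  ha : C.lo c ≤ a
  hb : b ≤ C.hi c
  hsd : ∀ e s, sd e s → C.cp e s = c
  hside : ∀ e ∈ C.R, ∀ s k, C.k1 e ≤ k → k ≤ C.k2 e → C.cp e s = c →
    (sd e s → b ≤ C.pos e s k) ∧ (¬ sd e s → C.pos e s k ≤ a)

variable {C : Cfg α E V} {c : V} {a b : ℤ} {sd : E → Bool → Prop} {X : Set (Option V × ℤ)}
  {V0 : FreeGroup α} {L : ℤ}

lemma Side.getD (S : Side C c a b sd) (e : E) (s : Bool) :
    ((C.vs c a b sd X).cp e s).getD c = C.cp e s := by
  simp only [vs]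
  split_ifs with h
  · simp [S.hsd e s h]
  · simp

lemma Side.P_eq (S : Side C c a b sd) {e : E} (he : e ∈ C.R) (s : Bool) {k : ℤ}
    (h1 : C.k1 e ≤ k) (h2 : k ≤ C.k2 e) :
    (C.vs c a b sd X).P e s k = mu c a (C.P e s k) ∨
      (b = a ∧ C.P e s k = (c, a) ∧ (C.vs c a b sd X).P e s k = (none, a)) := by
  have hp : (C.vs c a b sd X).pos e s k = C.pos e s k := rfl
  unfold P mu
  rw [hp]
  by_cases h : sd e s
  · have h3 := S.hsd e s h
    have h4 := (S.hside e he s k h1 h2 h3).1 h
    have h5 : (C.vs c a b sd X).cp e s = none := by simp [vs, h]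
    rw [h5]
    by_cases h6 : a < C.pos e s k
    · left
      simp [h3, h6]
    · right
      have := S.hab
      have h7 : C.pos e s k = a := by omega
      exact ⟨by omega, by rw [h3, h7], by rw [h7]⟩
  · have h5 : (C.vs c a b sd X).cp e s = some (C.cp e s) := by simp [vs, h]
    rw [h5]
    left
    rw [if_neg]
    rintro ⟨h3, h6⟩
    have := (S.hside e he s k h1 h2 h3).2 h
    simp only at h6
    omega

lemma mu_self (c : V) (a : ℤ) : mu c a (c, a) = (some c, a) := by simp [mu]

lemma Side.sim (S : Side C c a b sd) {Q : Type} [Group Q] (f : E → Q) (x : Q)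
    (harc : b = a → (none, a) ∈ X ∧
      ∃ l, Pth (C.vs c a b sd X).Step (some c, a) (none, a) l ∧ ev f l = x)
    {p q : V × ℤ} {l : List (E × Bool)} (h : Pth C.Step p q l) :
    ∃ m, Pth (C.vs c a b sd X).Step (mu c a p) (mu c a q) m ∧
      ev f m = uu x (mu c a q).1 * ev (twist (C.vs c a b sd X) x f) l * (uu x (mu c a p).1)⁻¹ := by
  refine Pth.sim (mu c a) (fun p => uu x (mu c a p).1) _ f ?_ h
  have conn : ∀ e ∈ C.R, ∀ s k, C.k1 e ≤ k → k ≤ C.k2 e → C.P e s k ∈ C.M →
      (C.vs c a b sd X).P e s k ∈ (C.vs c a b sd X).M ∧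
      ∃ m, Pth (C.vs c a b sd X).Step (mu c a (C.P e s k)) ((C.vs c a b sd X).P e s k) m ∧
        ev f m = uu x ((C.vs c a b sd X).cp e s) * (uu x (mu c a (C.P e s k)).1)⁻¹ := by
    intro e he s k h1 h2 hM
    rcases S.P_eq (X := X) he s h1 h2 with h3 | ⟨h3, h4, h5⟩
    · refine ⟨h3 ▸ Or.inl ⟨_, hM, rfl⟩, [], h3 ▸ Pth.nil _, ?_⟩
      rw [← h3]
      simp [P]
    · obtain ⟨h6, l, h7, h8⟩ := harc h3
      refine ⟨h5 ▸ Or.inr h6, l, by rw [h4, h5, mu_self]; exact h7, ?_⟩
      have h9 : (C.vs c a b sd X).cp e s = none := congrArg Prod.fst h5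
      rw [h8, h4, mu_self, h9]
      simp [uu]
  rintro p q ⟨e, s⟩ ⟨h1, h2, h3, k, h4, h5, h6, h7⟩
  simp only at h1 h4 h5 h6 h7
  subst h6 h7
  obtain ⟨a1, m1, a2, a3⟩ := conn e h1 (!s) k h4 h5 h2
  obtain ⟨b1, m2, b2, b3⟩ := conn e h1 s k h4 h5 h3
  obtain ⟨m3, b4, b5⟩ := Pth.rev (Q := Q) (fun _ _ _ _ => Step.symm) b2
  have st : (C.vs c a b sd X).Step ((C.vs c a b sd X).P e (!s) k) ((C.vs c a b sd X).P e s k)
      (e, s) := ⟨h1, a1, b1, k, h4, h5, rfl, rfl⟩
  refine ⟨m3 ++ ((e, s) :: m1), (Pth.cons a2 st).append b4, ?_⟩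
  rw [ev_append, ev_cons, b5, b3, a3]
  cases s
  · simp only [lv_false, twist, Bool.not_false]
    group
  · simp only [lv_true, twist, Bool.not_true]
    group

lemma Side.geo (S : Side C c a b sd) (G : C.Geo V0 L) (hX : X.Finite)
    (harc : b = a → (none, a) ∈ X ∧ ∃ l, Pth (C.vs c a b sd X).Step (some c, a) (none, a) l) :
    (C.vs c a b sd X).Geo V0 L := by
  have hab := S.hab
  have ha := S.ha
  have hb := S.hb
  have hc0 : C.c0 ≠ c := S.hc.symm
  refine ⟨G.dr1, G.kle, ?_, ?_, ?_, ?_, G.lo0, ?_, G.pV, (G.fin.image _).union hX, ?_⟩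
  · intro e he s k h1 h2
    have h3 := G.rng e he s k h1 h2
    have hp : (C.vs c a b sd X).pos e s k = C.pos e s k := rfl
    rw [hp]
    by_cases h : sd e s
    · have h4 := S.hsd e s h
      have h5 := (S.hside e he s k h1 h2 h4).1 h
      have h6 : (C.vs c a b sd X).cp e s = none := by simp [vs, h]
      rw [h6]
      rw [h4] at h3
      exact ⟨h5, h3.2⟩
    · have h6 : (C.vs c a b sd X).cp e s = some (C.cp e s) := by simp [vs, h]
      rw [h6]
      refine ⟨h3.1, ?_⟩
      simp only [vs, Option.elim]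
      split_ifs with h4
      · exact (S.hside e he s k h1 h2 h4).2 h
      · exact h3.2
  · intro e he k h1 h2
    have := G.eqn e he k h1 h2
    rw [← S.getD (X := X) e false, ← S.getD (X := X) e true] at this
    exact this
  · rintro (_ | d) i h1 h2
    · simp only [vs, Option.elim] at h1 h2
      exact G.adj c i (by omega) h2
    · simp only [vs, Option.elim] at h1 h2
      refine G.adj d i h1 ?_
      split_ifs at h2 with h3
      · subst h3; omega
      · exact h2
  · rintro (_ | d)
    · exact hb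
    · simp only [vs, Option.elim]
      split_ifs with h3
      · subst h3; exact ha
      · exact G.lh d
  · simp only [vs, Option.elim, if_neg hc0]
    exact G.hi0
  · obtain ⟨l, hl⟩ := G.gam
    obtain ⟨m, hm, _⟩ := S.sim (X := X) (Q := Unit) (fun _ => 1) 1
      (fun h => ⟨(harc h).1, (harc h).2.imp fun l hl => ⟨hl, rfl⟩⟩) hl
    refine ⟨m, ?_⟩
    simp only [mu, hc0, false_and, if_false] at hm
    exact hm

lemma Side.tr (S : Side C c a b sd) (h : C.Tr) : (C.vs c a b sd X).Tr := by
  intro q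
  obtain ⟨g, hg⟩ := h q
  refine ⟨fun d => g (d.getD c), fun e he k h1 h2 => ?_⟩
  simp only [S.getD]
  exact hg e he k h1 h2

lemma Side.val_eq (S : Side C c a b sd) {Q : Type} [Group Q] (φ : FreeGroup α →* Q)
    (t : Option V → Q) (e : E) :
    twist (C.vs c a b sd X) (t none * (t (some c))⁻¹) ((C.vs c a b sd X).val φ t) e =
      C.val φ (fun d => t (some d)) e := by
  have h : ∀ s, (uu (t none * (t (some c))⁻¹) ((C.vs c a b sd X).cp e s))⁻¹ *
      t ((C.vs c a b sd X).cp e s) = t (some (C.cp e s)) := by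
    intro s
    simp only [vs]
    split_ifs with h
    · simp [uu, S.hsd e s h]
    · simp [uu]
  unfold twist val
  beta_reduce
  rw [← h true, ← h false]
  have hw : (C.vs c a b sd X).w e = C.w e := rfl
  rw [hw]
  group

lemma Side.cov (S : Side C c a b sd) (G : C.Geo V0 L) {p : Option V × ℤ}
    (hp : p ∈ (C.vs c a b sd X).cells) (β : E × Bool) :
    (C.vs c a b sd X).Cov β p.1 p.2 ↔ C.Cov β (nu c p).1 p.2 := by
  obtain ⟨e, s⟩ := β
  obtain ⟨d, i⟩ := p
  have hab := S.hab
  constructor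
  · rintro ⟨h1, h2, h3⟩
    refine ⟨h1, ?_, h3⟩
    simp only at h2 ⊢
    rw [← S.getD (X := X) e s, h2]
    rfl
  · rintro ⟨h1, h2, k, h3, h4, h5⟩
    refine ⟨h1, ?_, k, h3, h4, h5⟩
    simp only [nu] at h1 h2 h3 h4 h5 ⊢
    have p1 := S.hside e h1 s k h3 h4.le
    have p2 := S.hside e h1 s (k + 1) (by omega) (by omega)
    have p3 : C.pos e s k = i ∧ C.pos e s (k + 1) = i + 1 ∨
        C.pos e s k = i + 1 ∧ C.pos e s (k + 1) = i := by
      rcases G.pos_cases h1 s with ⟨_, q1, q2⟩ | ⟨_, q1, q2⟩ <;> rw [q1, q1] <;> rw [q2] at h5 <;>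
        omega
    cases d with
    | none =>
      simp only [Option.getD_none] at h2
      simp only [cells, vs, Option.elim, Set.mem_setOf_eq] at hp
      have h6 : sd e s := by
        by_contra h6
        have := (p1 h2).2 h6
        have := (p2 h2).2 h6
        omega
      simp [vs, h6]
    | some d =>
      simp only [Option.getD_some] at h2
      simp only [cells, vs, Option.elim, Set.mem_setOf_eq] at hp
      have h6 : ¬ sd e s := by
        intro h6
        have h7 := S.hsd e s h6
        have := (p1 h7).1 h6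
        have := (p2 h7).1 h6
        rw [if_pos (h2 ▸ h7)] at hp
        omega
      simp [vs, h6, h2]

lemma Side.wt (S : Side C c a b sd) (G : C.Geo V0 L) {p : Option V × ℤ}
    (hp : p ∈ (C.vs c a b sd X).cells) :
    (C.vs c a b sd X).wt p.1 p.2 = C.wt (nu c p).1 p.2 := by
  unfold Cfg.wt
  congr 1
  ext β
  exact S.cov G hp β

lemma Side.cells (S : Side C c a b sd) {p : Option V × ℤ}
    (hp : p ∈ (C.vs c a b sd X).cells) :
    nu c p ∈ C.cells ∧ (p.1 = none → b ≤ p.2) ∧ (p.1 = some c → p.2 < a) := by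
  obtain ⟨d, i⟩ := p
  have hab := S.hab
  have ha := S.ha
  have hb := S.hb
  cases d with
  | none =>
    simp only [Cfg.cells, vs, Option.elim, Set.mem_setOf_eq] at hp
    refine ⟨⟨?_, hp.2⟩, fun _ => hp.1, fun h => by simp at h⟩
    simp only [nu, Option.getD_none]
    omega
  | some d =>
    simp only [Cfg.cells, vs, Option.elim, Set.mem_setOf_eq] at hp
    refine ⟨⟨hp.1, ?_⟩, fun h => by simp at h, fun h => ?_⟩
    · simp only [nu, Option.getD_some]
      split_ifs at hp with h3
      · subst h3; omega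
      · exact hp.2
    · simp only [Option.some.injEq] at h
      rw [if_pos h] at hp
      exact hp.2

lemma Side.nu_inj (S : Side C c a b sd) : Set.InjOn (nu c) (C.vs c a b sd X).cells := by
  rintro ⟨d, i⟩ hp ⟨d', i'⟩ hq h
  have h1 := S.cells hp
  have h2 := S.cells hq
  have hab := S.hab
  simp only [nu, Prod.mk.injEq] at h
  obtain ⟨h3, rfl⟩ := h
  cases d <;> cases d'
  · rfl
  · simp only [Option.getD_none, Option.getD_some] at h3
    subst h3
    have := h1.2.1 rfl
    have := h2.2.2 rfl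
    simp only at *
    omega
  · simp only [Option.getD_none, Option.getD_some] at h3
    subst h3
    have := h1.2.2 rfl
    have := h2.2.1 rfl
    simp only at *
    omega
  · simp only [Option.getD_some] at h3
    rw [h3]

end Cfg

/-- the value which the new edge has to take -/
def tv {E Q : Type} [Group Q] (o : Option E) (f : Option E → Q) : Q :=
  o.elim 1 (fun B => f (some B))

namespace Cfg

variable {α E V : Type} [DecidableEq α]

/-- configurations with one redundant edge -/
structure Pre (C : Cfg α (Option E) V) (V0 : FreeGroup α) (L : ℤ) (o : Option E) : Prop where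
  geo : C.Geo V0 L
  tr : C.Tr
  ex : ∀ (Q : Type) [Group Q] (f : Option E → Q), C.Kills f → f none = tv o f →
    ∃ (φ : FreeGroup α →* Q) (t : V → Q), ∀ e, f e = C.val φ t e
  gen : ∀ (Q : Type) [Group Q] (H : Subgroup Q) (φ : FreeGroup α →* Q) (t : V → Q),
    (∀ e, C.val φ t (some e) ∈ H) → t C.c0 ∈ H → (∀ g, φ g ∈ H) ∧ ∀ c, t c ∈ H
  hv : ∀ (Q : Type) [Group Q] (φ : FreeGroup α →* Q) (t : V → Q),
    C.val φ t none = tv o (C.val φ t)

variable {C : Cfg α (Option E) V} {c : V} {a b : ℤ} {sd : Option E → Bool → Prop}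
  {X : Set (Option V × ℤ)} {V0 : FreeGroup α} {L : ℤ} {o : Option E}

lemma Pre.split (h : C.Pre V0 L o) (S : Side C c a b sd) (hX : X.Finite)
    (solve : ∀ (Q : Type) [Group Q] (f : Option E → Q), ∃ x,
      twist (C.vs c a b sd X) x f none = tv o (twist (C.vs c a b sd X) x f) ∧
      (b = a → (none, a) ∈ X ∧
        ∃ l, Pth (C.vs c a b sd X).Step (some c, a) (none, a) l ∧ ev f l = x))
    (gsolve : ∀ (Q : Type) [Group Q] (H : Subgroup Q) (f : Option E → Q) (x : Q),
      (∀ e, f e ∈ H) →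
      twist (C.vs c a b sd X) x f none = tv o (twist (C.vs c a b sd X) x f) → x ∈ H) :
    (C.vs c a b sd X).Inv V0 L := by
  refine ⟨S.geo h.geo hX fun hb => ?_, ?_, ?_, S.tr h.tr⟩
  · obtain ⟨x, _, h2⟩ := solve Unit (fun _ => 1)
    obtain ⟨h3, l, h4, _⟩ := h2 hb
    exact ⟨h3, l, h4⟩
  · intro Q _ f hf
    obtain ⟨x, h1, h2⟩ := solve Q f
    have hk : C.Kills (twist (C.vs c a b sd X) x f) := by
      intro p l hl
      obtain ⟨m, h3, h4⟩ := S.sim f x h2 hl
      rw [hf _ _ h3] at h4
      have : ev (twist (C.vs c a b sd X) x f) l =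
          (uu x (mu c a p).1)⁻¹ * (uu x (mu c a p).1 * ev (twist (C.vs c a b sd X) x f) l *
            (uu x (mu c a p).1)⁻¹) * uu x (mu c a p).1 := by group
      rw [this, ← h4]
      group
    obtain ⟨φ, t, ht⟩ := h.ex Q _ hk h1
    refine ⟨φ, fun d => uu x d * t (d.getD c), fun e => ?_⟩
    have h5 := ht e
    unfold twist val at h5
    unfold val
    beta_reduce
    rw [S.getD, S.getD]
    have hw : (C.vs c a b sd X).w e = C.w e := rfl
    rw [hw]
    have : f e = uu x ((C.vs c a b sd X).cp e true) * ((uu x ((C.vs c a b sd X).cp e true))⁻¹ *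
        f e * uu x ((C.vs c a b sd X).cp e false)) * (uu x ((C.vs c a b sd X).cp e false))⁻¹ := by
      group
    rw [this, h5]
    group
  · intro Q _ H φ t hval ht0
    have h1 : ∀ e, twist (C.vs c a b sd X) (t none * (t (some c))⁻¹)
        ((C.vs c a b sd X).val φ t) e = C.val φ (fun d => t (some d)) e := S.val_eq φ t
    have h2 : t none * (t (some c))⁻¹ ∈ H := by
      refine gsolve Q H _ _ hval ?_
      rw [show twist (C.vs c a b sd X) (t none * (t (some c))⁻¹) ((C.vs c a b sd X).val φ t) =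
        C.val φ (fun d => t (some d)) from funext h1]
      exact h.hv Q φ _
    have h3 : ∀ d : Option V, uu (t none * (t (some c))⁻¹) d ∈ H := by
      rintro (_ | d)
      · exact h2
      · exact H.one_mem
    obtain ⟨h4, h5⟩ := h.gen Q H φ (fun d => t (some d)) (fun e => by
      rw [← h1]
      exact H.mul_mem (H.mul_mem (H.inv_mem (h3 _)) (hval _)) (h3 _)) ht0
    refine ⟨h4, ?_⟩
    rintro (_ | d)
    · have := H.mul_mem h2 (h5 c)
      simpa using this
    · exact h5 d

end Cfg

end Pool.Agent.H8Z.BTE
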